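import Pool.Agent.L7h85.RL.Stm

/-!
# The exact growth of the orders of the poles, and the root law without logarithm: abstract part

`𝒮` is a system (`L7h85/RL/Sys.lean`). See `L7h32/RL/Bas.lean` for the commutative monoid
`WithOne (Qt 𝒮)` of the classes of equivalent objects (`cl_ten`, `hh_adj`, `cl_pw`, `Sub`, `sub_tri`)
and `L7h26/RL/Log.lean`, `L7h73/RL/Sch.lean` for sums over simple types (`Rep`).
-/

set_option autoImplicit false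

namespace Pool.Agent.L7h85.PW

open Finset Pool.Agent.L7h85.RL

universe u v

variable {Ob : Type u}

/-- The tensor product of the objects of a word. -/
def wd (𝒮 : Sys Ob) {Λ : Type*} (U : Λ → Ob) : (n : ℕ) → (Fin (n + 1) → Λ) → Ob
  | 0, x => U (x 0)
  | n + 1, x => 𝒮.ten (U (x 0)) (wd 𝒮 U n (Fin.tail x))

/-- The energies of the powers of `A` are bounded from below. -/
def Low (𝒮 : Sys Ob) (A : Ob) : Prop :=
  ∃ R : ℕ, ∀ n, 𝒮.dim A ^ (2 * (n + 1)) ≤ R * 𝒮.h (𝒮.pw A n) (𝒮.pw A n)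

/-- The object `V` is the sum of the non-zero objects `U a` of distinct degrees `g a` in the group
`Γ`; for words `x`, `y` of the same length the object `x ⊗ y*` is in `T` if `x` and `y` have the same
degree, and otherwise it has no simple constituent in `T`. -/
structure IsDec (𝒮 : Sys Ob) (T : Ob → Prop) (V : Ob) {Λ : Type} [Fintype Λ] (U : Λ → Ob)
    {Γ : Type v} [CommGroup Γ] (g : Λ → Γ) : Prop where
  sum : ∀ C, 𝒮.h V C = ∑ a, 𝒮.h (U a) C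
  dim : 𝒮.dim V = ∑ a, 𝒮.dim (U a)
  pos : ∀ a, 0 < 𝒮.dim (U a)
  inj : Function.Injective g
  mem : ∀ (n : ℕ) (x y : Fin (n + 1) → Λ), ∏ i, g (x i) = ∏ i, g (y i) →
    T (𝒮.ten (wd 𝒮 U n x) (𝒮.dual (wd 𝒮 U n y)))
  no : ∀ (n : ℕ) (x y : Fin (n + 1) → Λ), ∏ i, g (x i) ≠ ∏ i, g (y i) →
    ∀ S, 𝒮.h S S = 1 → T S → 𝒮.h S (𝒮.ten (wd 𝒮 U n x) (𝒮.dual (wd 𝒮 U n y))) = 0

/-- [SUMW] Expansion in words (only `sum` is needed), and the dimension of a word.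

Proof: induction on `n`; `h (V ⊗ P) C = h V (C ⊗ P*) = ∑ a, h (U a) (C ⊗ P*) = ∑ a, h (U a ⊗ P) C =
∑ a, h (P ⊗ U a) C = ∑ a, h P (C ⊗ (U a)*)`, and `Fin.consEquiv` for the sums over words. -/
def S_SUMW : Prop := ∀ {Ob : Type u} (𝒮 : Sys Ob) (V : Ob) (Λ : Type) [Fintype Λ] (U : Λ → Ob),
  (∀ C, 𝒮.h V C = ∑ a, 𝒮.h (U a) C) → ∀ n : ℕ,
    (∀ C, 𝒮.h (𝒮.pw V n) C = ∑ x : Fin (n + 1) → Λ, 𝒮.h (wd 𝒮 U n x) C) ∧
    (∀ x : Fin (n + 1) → Λ, 𝒮.dim (wd 𝒮 U n x) = ∏ i, 𝒮.dim (U (x i)))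

/-- [ORT] Words of different degrees are orthogonal.

Proof: a common simple constituent `S` of `x` and `y`; `S ⊗ S*` is not zero and it is contained in
`x ⊗ x*`, which is in `T` by `mem`; so a simple constituent `S'` of `S ⊗ S*` is in `T`, and it is
contained in `x ⊗ y*`, a contradiction to `no`. -/
def S_ORT : Prop := ∀ {Ob : Type u} (𝒮 : Sys Ob) (T : Ob → Prop), 𝒮.IsStable T →
  ∀ (V : Ob) (Λ : Type) [Fintype Λ] (U : Λ → Ob) (Γ : Type v) [CommGroup Γ] (g : Λ → Γ),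
  IsDec 𝒮 T V U g → ∀ (n : ℕ) (x y : Fin (n + 1) → Λ), ∏ i, g (x i) ≠ ∏ i, g (y i) →
    𝒮.h (wd 𝒮 U n x) (wd 𝒮 U n y) = 0

open Classical in
/-- [DIM] The dimension of the part of `wq V n` in the class `T`.

Proof: with `Rep` (simple types `i`), `v (O) i = h (O, s i)` is `h (wq V n, s i) =
∑ x y, h (x ⊗ y*, s i)` if `s i` is in `T`, and zero otherwise (`O` is in `T`, `IsStable.sub`); the
same holds for the sum over the pairs of words of the same degree, by `mem` and `no`. -/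
def S_DIM : Prop := ∀ {Ob : Type u} (𝒮 : Sys Ob) (T : Ob → Prop), 𝒮.IsStable T →
  ∀ (V : Ob) (Λ : Type) [Fintype Λ] (U : Λ → Ob) (Γ : Type v) [CommGroup Γ] (g : Λ → Γ),
  IsDec 𝒮 T V U g → ∀ (n : ℕ) (O R : Ob), 𝒮.IsSplit T (𝒮.wq V n) O R →
    𝒮.dim O = ∑ x : Fin (n + 1) → Λ, ∑ y : Fin (n + 1) → Λ,
      if ∏ i, g (x i) = ∏ i, g (y i) then (∏ i, 𝒮.dim (U (x i))) * ∏ i, 𝒮.dim (U (y i)) else 0

open Classical in
/-- [WEN] The energy of a word with `k + 1` letters `a₀`: it is at most the energy of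
`pw (U a₀) k` times the square of the dimension of the other factors.

Proof: in `WithOne (Qt 𝒮)` the class of `x` is `∏ i, cl (U (x i))` (induction), so it is
`cl (pw (U a₀) k) * ∏ i with x i ≠ a₀, cl (U (x i))`; and `h (A ⊗ B) (A ⊗ B) ≤ dim A ^ 2 * h B B`
(`S_SCF` with one summand), by induction over the finset of the other letters. -/
def S_WEN : Prop := ∀ {Ob : Type u} (𝒮 : Sys Ob) (Λ : Type) [Fintype Λ] (U : Λ → Ob) (a₀ : Λ)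
    (n k : ℕ) (x : Fin (n + 1) → Λ), (univ.filter fun i => x i = a₀).card = k + 1 →
  𝒮.h (wd 𝒮 U n x) (wd 𝒮 U n x) ≤
    (∏ i with x i ≠ a₀, 𝒮.dim (U (x i))) ^ 2 * 𝒮.h (𝒮.pw (U a₀) k) (𝒮.pw (U a₀) k)

open Classical in
/-- [TAIL] Pure analysis. `D x = ∏ i, d (x i)`, `k x` the number of letters `a₀` in `x`,
`z N = ∑ D x D y` over the related pairs. If `e N x ≤ D x ^ 2` and `e N x ≤ C D x ^ 2 / √(k x)` for
`0 < k x`, and `z N` is not smaller than `b ^ (2 N + 2)` up to a polynomial factor, then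
`∑ (D y / D x) e N x ≤ C' z N / √(N + 1)`, the sum over the related pairs.

Proof: let `q = d a₀ / b`, `ε = q / 2`. The words with `k x ≥ ε (N + 1)` contribute at most
`C z N / √(ε (N + 1))`. The other ones contribute at most
`∑_{k x < ε (N + 1)} D x * ∑ y, D y ≤ b ^ (N + 1) * ∑ x, D x * exp (ε (N + 1) - k x)
= b ^ (2 N + 2) * (exp ε * (1 - q + q / e)) ^ (N + 1)` and `exp ε * (1 - q + q / e) =: θ < 1`
(`1 - t ≤ exp (-t)` and `1 - 1 / e > 1 / 2`), and `θ ^ (N + 1) * (N + 2) ^ (e + 1)` is bounded. -/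
def S_TAIL : Prop := ∀ (Λ : Type) [Fintype Λ] (d : Λ → ℕ) (a₀ : Λ)
    (rel : ∀ N : ℕ, (Fin (N + 1) → Λ) → (Fin (N + 1) → Λ) → Prop)
    (e : ∀ N : ℕ, (Fin (N + 1) → Λ) → ℝ) (C : ℝ) (s : ℕ), 0 < C → (∀ a, 0 < d a) →
  (∀ N x, 0 ≤ e N x) →
  (∀ N x, e N x ≤ (∏ i, (d (x i) : ℝ)) ^ 2) →
  (∀ N x, 0 < (univ.filter fun i => x i = a₀).card →
    e N x ≤ C * (∏ i, (d (x i) : ℝ)) ^ 2 / √((univ.filter fun i => x i = a₀).card)) →
  (∀ N, ((∑ a, d a : ℕ) : ℝ) ^ (2 * (N + 1)) ≤ (∑ x, ∑ y, if rel N x y then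
    (∏ i, (d (x i) : ℝ)) * ∏ i, (d (y i) : ℝ) else 0) * ((N : ℝ) + 2) ^ s) →
  ∃ C' : ℝ, 0 < C' ∧ ∀ N : ℕ,
    (∑ x, ∑ y, if rel N x y then (∏ i, (d (y i) : ℝ)) / (∏ i, (d (x i) : ℝ)) * e N x else 0) ≤
      C' / √(N + 1) * ∑ x, ∑ y, if rel N x y then
        (∏ i, (d (x i) : ℝ)) * ∏ i, (d (y i) : ℝ) else 0

/-- [BLK] The block estimate: one summand `U a₀` of `V` whose powers have small energies makes the
energies of the powers of `V` small compared with the dimensions of the parts in `T`.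

Proof: by SUMW and ORT `h (pw V n) (pw V n) = ∑ h x y` over the pairs of words of the same degree, by
Cauchy and Schwarz (`h x y ^ 2 ≤ h x x * h y y`, `L7h26.RL.cs`) and the inequality of the means
`h x y ≤ (D y / D x * h x x + D x / D y * h y y) / 2`, so `h (pw V n) (pw V n) ≤
∑ D y / D x * h x x`; WEN, DIM and TAIL finish the proof. -/
def S_BLK' : Prop := ∀ {Ob : Type u} (𝒮 : Sys Ob) (T : Ob → Prop), 𝒮.IsStable T →
  ∀ (V : Ob) (O R : ℕ → Ob), (∀ n, 𝒮.IsSplit T (𝒮.wq V n) (O n) (R n)) →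
  ∀ (Λ : Type) [Fintype Λ] (U : Λ → Ob) (Γ : Type v) [CommGroup Γ] (g : Λ → Γ),
  IsDec 𝒮 T V U g →
  ∀ e : ℕ, (∀ n, 𝒮.dim V ^ (2 * (n + 1)) ≤ 𝒮.h (𝒮.pw V n) (𝒮.pw V n) * (n + 2) ^ e) →
  ∀ (a₀ : Λ) (C : ℝ), 0 < C → (∀ n : ℕ, (𝒮.h (𝒮.pw (U a₀) n) (𝒮.pw (U a₀) n) : ℝ) ≤
    C * (𝒮.dim (U a₀) : ℝ) ^ (2 * (n + 1)) / √(n + 1)) →
  ∃ c : ℝ, 0 < c ∧ ∀ n : ℕ, c * √(n + 1) * 𝒮.h (𝒮.pw V n) (𝒮.pw V n) ≤ 𝒮.dim (O n)

/-- [FTEN] Tensor products of objects with energies bounded from below.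

Proof: let `F A` be the set of the simple types in the `wq A n`, finite by SUM (`S_SUM`, and
`wq A n ⊂ wq A (n + 1)`, `L7h32.RL.wq_mono`); the simple types in the `s i ⊗ s j`, `i ∈ F A`,
`j ∈ F B` are a finite set closed under `(A ⊗ B)* ⊗ (A ⊗ B) ⊗ _` (if `S'` is in
`(A ⊗ B)* ⊗ (A ⊗ B) ⊗ S`, `S` in `s i ⊗ s j`, then `S'` is in `(A* ⊗ A ⊗ s i) ⊗ (B* ⊗ B ⊗ s j)`),
and CLO (`L7h73.RL.s_CLO`) gives the bound for `A ⊗ B`. -/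
def S_FTEN : Prop := ∀ {Ob : Type u} (𝒮 : Sys Ob) (A B : Ob), 0 < 𝒮.dim A → 0 < 𝒮.dim B →
  Low 𝒮 A → Low 𝒮 B → Low 𝒮 (𝒮.ten A B)

/-- [FIN2] The finite case.

Proof: by GEN (`L7h32.RL.s_GEN`) there is `κ` such that all simple objects of `T` in the `wq V N` are in
the `wq (O κ) n`. Let `P` be the tensor product of all the `U κ a` (`𝒮.lt`, or `wd` over an enumeration
of `Λ κ`); it is `Low` by FTEN. By `IsDec` (with `n = 0`) every simple object of `T` in `wq V κ` is in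
some `U a ⊗ (U b)*` with `g a = g b`, so `a = b`, and `U a ⊗ (U a)*` is contained in `P ⊗ P*`
(`L7h32.RL.sub_tri`); so `Sub (cl (O κ)) (cl (wq P 0))` and `Sub (cl (wq (O κ) n)) (cl (wq P m))` with
`m + 1 = 2 (n + 1)`. Then FIN (`L7h32.RL.s_FIN`) applies to `P`. If `Λ κ` is empty then `dim V = 0`. -/
def S_FIN2 : Prop := ∀ {Ob : Type u} (𝒮 : Sys Ob) (T : Ob → Prop), 𝒮.IsStable T →
  ∀ (V : Ob) (O R : ℕ → Ob), 0 < 𝒮.dim V → (∀ n, 𝒮.IsSplit T (𝒮.wq V n) (O n) (R n)) →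
  ∀ (Λ' : Type) [Fintype Λ'] (U' : Λ' → Ob) (Γ' : Type v) [CommGroup Γ'] (g' : Λ' → Γ'),
  𝒮.IsGraded T (𝒮.ten V (𝒮.dual V)) U' g' →
  ∀ (Λ : ℕ → Type) [∀ κ, Fintype (Λ κ)] (U : ∀ κ, Λ κ → Ob) (Γ : Type v) [CommGroup Γ]
    (g : ∀ κ, Λ κ → Γ), (∀ κ, IsDec 𝒮 T (𝒮.pw V κ) (U κ) (g κ)) →
  (∀ κ a, Low 𝒮 (U κ a)) → ∃ r : ℕ, ∀ n, 𝒮.dim (O n) ≤ r * 𝒮.h (𝒮.pw V n) (𝒮.pw V n)

/-- [NOLOG] The root law without logarithm.

Proof: FIN2 if all `U κ a` are `Low`; otherwise DICH (`L7h73.RL.s_DICH`) and BLK' for the block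
`pw V κ`, where `wq (pw V κ) N` is equivalent to `wq V ((κ + 1) (N + 1) - 1)`; for the other `n` use
`h (pw V (n + 1)) ≤ dim V ^ 2 * h (pw V n)` and that `dim (O n)` is increasing (DIM with `κ = 0`). -/
def S_NOLOG : Prop := ∀ {Ob : Type u} (𝒮 : Sys Ob) (T : Ob → Prop), 𝒮.IsStable T →
  ∀ (V : Ob) (O R : ℕ → Ob), 0 < 𝒮.dim V → (∀ n, 𝒮.IsSplit T (𝒮.wq V n) (O n) (R n)) →
  ∀ (Λ' : Type) [Fintype Λ'] (U' : Λ' → Ob) (Γ' : Type v) [CommGroup Γ'] (g' : Λ' → Γ'),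
  𝒮.IsGraded T (𝒮.ten V (𝒮.dual V)) U' g' →
  ∀ e : ℕ, (∀ n, 𝒮.dim V ^ (2 * (n + 1)) ≤ 𝒮.h (𝒮.pw V n) (𝒮.pw V n) * (n + 2) ^ e) →
  ∀ (Λ : ℕ → Type) [∀ κ, Fintype (Λ κ)] (U : ∀ κ, Λ κ → Ob) (Γ : Type v) [CommGroup Γ]
    (g : ∀ κ, Λ κ → Γ), (∀ κ, IsDec 𝒮 T (𝒮.pw V κ) (U κ) (g κ)) →
  (∃ r : ℕ, ∀ n, 𝒮.dim (O n) ≤ r * 𝒮.h (𝒮.pw V n) (𝒮.pw V n)) ∨
  ∃ c : ℝ, 0 < c ∧ ∀ n : ℕ, c * √(n + 1) * 𝒮.h (𝒮.pw V n) (𝒮.pw V n) ≤ 𝒮.dim (O n)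

end Pool.Agent.L7h85.PW
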