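import Pool.Agent.L7h85.PW.Stm2
import Pool.Agent.L7h85.RL.Geo2
import Pool.Agent.L7h85.GR.Gen

/-!
# The exact growth of the numbers of Tate classes: statements (second round)

`t n ~ κ' b ^ (2 n) / n ^ ((ρ + 1) / 2)` and `r n ≤ C b ^ (2 n) / n ^ ((ρ + 3) / 2)` if the Frobenius
endomorphism is not semisimple on `H(X)`.
-/

set_option linter.unusedVariables false
set_option linter.unusedSectionVars false

open CategoryTheory AlgebraicGeometry CategoryTheory.Limits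

universe u v w

namespace Pool.Agent.L7h85.PW

open Finset TensorProduct Pool.Agent.L7h85.RL

open Classical in
/-- [TAILG] TAIL with an exponent `γ`.

Proof: as TAIL (`L7h60/PW/Tail.lean`, the case `γ = 1 / 2`). -/
def S_TAILG : Prop := ∀ (Λ : Type) [Fintype Λ] (d : Λ → ℕ) (a₀ : Λ)
    (rel : ∀ N : ℕ, (Fin (N + 1) → Λ) → (Fin (N + 1) → Λ) → Prop)
    (e : ∀ N : ℕ, (Fin (N + 1) → Λ) → ℝ) (C γ : ℝ) (s : ℕ), 0 < C → 0 ≤ γ → (∀ a, 0 < d a) →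
  (∀ N x, 0 ≤ e N x) →
  (∀ N x, e N x ≤ (∏ i, (d (x i) : ℝ)) ^ 2) →
  (∀ N x, 0 < (univ.filter fun i => x i = a₀).card →
    e N x ≤ C * (∏ i, (d (x i) : ℝ)) ^ 2 / ((univ.filter fun i => x i = a₀).card : ℝ) ^ γ) →
  (∀ N, ((∑ a, d a : ℕ) : ℝ) ^ (2 * (N + 1)) ≤ (∑ x, ∑ y, if rel N x y then
    (∏ i, (d (x i) : ℝ)) * ∏ i, (d (y i) : ℝ) else 0) * ((N : ℝ) + 2) ^ s) →
  ∃ C' : ℝ, 0 < C' ∧ ∀ N : ℕ,
    (∑ x, ∑ y, if rel N x y then (∏ i, (d (y i) : ℝ)) / (∏ i, (d (x i) : ℝ)) * e N x else 0) ≤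
      C' / ((N : ℝ) + 1) ^ γ * ∑ x, ∑ y, if rel N x y then
        (∏ i, (d (x i) : ℝ)) * ∏ i, (d (y i) : ℝ) else 0

/-- [BLKG] The block estimate with an exponent `γ`.

Proof: as BLK' (`L7h60/PW/Blk.lean`), with TAILG. -/
def S_BLKG : Prop := ∀ {Ob : Type u} (𝒮 : Sys Ob) (T : Ob → Prop), 𝒮.IsStable T →
  ∀ (V : Ob) (O R : ℕ → Ob), (∀ n, 𝒮.IsSplit T (𝒮.wq V n) (O n) (R n)) →
  ∀ (Λ : Type) [Fintype Λ] (U : Λ → Ob) (Γ : Type v) [CommGroup Γ] (g : Λ → Γ),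
  IsDec 𝒮 T V U g →
  ∀ e : ℕ, (∀ n, 𝒮.dim V ^ (2 * (n + 1)) ≤ 𝒮.h (𝒮.pw V n) (𝒮.pw V n) * (n + 2) ^ e) →
  ∀ (a₀ : Λ) (C γ : ℝ), 0 < C → 0 ≤ γ → (∀ n : ℕ, (𝒮.h (𝒮.pw (U a₀) n) (𝒮.pw (U a₀) n) : ℝ) ≤
    C * (𝒮.dim (U a₀) : ℝ) ^ (2 * (n + 1)) / ((n : ℝ) + 1) ^ γ) →
  ∃ c : ℝ, 0 < c ∧ ∀ n : ℕ,
    c * ((n : ℝ) + 1) ^ γ * 𝒮.h (𝒮.pw V n) (𝒮.pw V n) ≤ 𝒮.dim (O n)

open Classical in
/-- [ENDP] The local limit theorem with an end point: the number of walks with `n` steps that end at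
`v` is asymptotically the number of the closed walks, if `v` is in the group generated by the steps.
(`cw w n` is the number of closed walks, with the asymptotics `L7h85.GR.lcl`.)

Proof. Let `N v n` be the number of walks from `0` to `v`. (1) `N v (2 m) ≤ N 0 (2 m)` (Cauchy and
Schwarz: `N v (2 m) = ∑ u, N u m * N (v - u) m`, `N` is even in `v` by `τ`). (2) By `lcl`
`N 0 (n + 1) / (|ι| N 0 n) → 1`. As `|ι| N 0 (2 m) - N 0 (2 m + 1) = ∑ i, (N 0 (2 m) - N (w i) (2 m))`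
with all terms `≥ 0`, `N (w i) (2 m) / N 0 (2 m) → 1` for all `i`. (3) `N 0 (2 m) - N s (2 m) =
(1 / 2) ∑ u, (N u m - N (u + s) m) ^ 2`, so if this is `o (N 0 (2 m))` for `s` and `s'` then also for
`s + s'` (Minkowski) and `- s`: so `N v (2 m) / N 0 (2 m) → 1` for all `v` in the group. (4)
`N v (2 m + 1) = ∑ i, N (v - w i) (2 m)`, and `N 0 (2 m + 1) ~ |ι| N 0 (2 m)`. -/
def S_ENDP : Prop := ∀ (Q : Type v) [AddCommGroup Q] (ι : Type) [Fintype ι] (w : ι → Q)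
    (τ : ι → ι), Function.Bijective τ → (∀ i, w (τ i) = -w i) → ∀ i₀, w i₀ = 0 →
  ∀ q ∈ AddSubgroup.closure (Set.range w),
    Filter.Tendsto (fun n : ℕ => ((univ.filter fun f : Fin n → ι => ∑ k, w (f k) = q).card : ℝ) /
      Pool.Agent.L7h85.GR.cw w n) Filter.atTop (nhds 1)

open Classical in
/-- [KERN] The dimensions of the eigenspaces of the tensor powers of an operator (Clebsch-Gordan).
`ι` is the disjoint union, over the Jordan blocks of `E 0`, of the sets of weights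
`m - 1, m - 3, …, 1 - m` (`m` the size), `l` the eigenvalue and `h` the weight.

Proof (see `L7h65/RL/Jc.lean`, `Jd.lean`, `Jf.lean`: `nb`, `Af`, `Af_map`, `Af_pow`, `op`, `Ub`, `hh`
treat one unipotent operator): decompose `V 0 = ⨁ a, V_a` into the generalised eigenspaces,
`E 0 = l_a u_a` there; `V n` is the direct sum over the words `x` of the `⨂ V_(x i)`, with
`E n = ∏ l_(x i) ⨂ u_(x i)`; by `Af_map` (any `w`!) the function `Af` of the word is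
`(∏ op_(x i)) hh`, where `op_a = ∑ Sh (h i)`, the sum over the `i` with `l i = l_a`, and
`dim ker (u - 1) = ∑ m ≥ 1, nb m = ∑ m ≥ 1, Af m` is the number of `f` with total weight `0` or `1`.
Alternatively by induction on `n`, with `AfE E c := od (m ↦ number of Jordan blocks of size m and
eigenvalue c)` and `AfE (E ⊗ E') c = ∑ a, op_a (AfE E' (c / a))`. -/
def S_KERN : Prop := ∀ (K : Type v) [Field K] [IsAlgClosed K] [CharZero K] (V : ℕ → Type w)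
    [∀ n, AddCommGroup (V n)] [∀ n, Module K (V n)] [∀ n, Module.Finite K (V n)]
    (e : ∀ n, (V 0 ⊗[K] V n) ≃ₗ[K] V (n + 1)) (E : ∀ n, V n →ₗ[K] V n),
  (∀ n, E (n + 1) ∘ₗ (e n).toLinearMap =
    (e n).toLinearMap ∘ₗ TensorProduct.map (E 0) (E n)) →
  Function.Injective (E 0) →
  ∃ (ι : Type) (_ : Fintype ι) (l : ι → K) (h : ι → ℤ),
    Fintype.card ι = Module.finrank K (V 0) ∧
    (∀ μ, (∃ i, l i = μ) ↔ (Module.End.HasEigenvalue (E 0) μ)) ∧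
    (¬ Module.End.IsSemisimple (E 0) → ∃ i j, l i = l j ∧ h i ≠ h j) ∧
    (∀ (c : K) (j : ℤ), (univ.filter fun i => l i = c ∧ h i = j).card =
      (univ.filter fun i => l i = c ∧ h i = -j).card) ∧
    (∀ c c' : K, (∀ m : ℕ, Module.finrank K (LinearMap.ker ((E 0 - c • 1) ^ m)) =
        Module.finrank K (LinearMap.ker ((E 0 - c' • 1) ^ m))) →
      ∀ j : ℤ, (univ.filter fun i => l i = c ∧ h i = j).card =
        (univ.filter fun i => l i = c' ∧ h i = j).card) ∧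
    ∀ (n : ℕ) (c : K), Module.finrank K (LinearMap.ker (E n - c • 1)) =
      (univ.filter fun f : Fin (n + 1) → ι =>
        ∏ k, l (f k) = c ∧ (∑ k, h (f k) = 0 ∨ ∑ k, h (f k) = 1)).card

open Pool.Agent.H914 Pool.Agent.H447 Pool.Agent.W534 VarClass Obj WeilCohomology Module
open Pool.Agent.Y163 Pool.Agent.R908

variable {k : Type u} [Field k] {𝒱 : VarClass k} {ops : CycleOps 𝒱}
  {W : WeilCohomology.{u, v} ops} {p : ℕ}

/-- [NSU] If the Frobenius endomorphism is not semisimple on `H(X)`, then one summand of `X` has small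
energies.

Proof: take `U a = ⟨X, e a⟩` of `s_GRX` (`L7h85/PW/Grx.lean`), and
`A a = gten (U a) (gdual (U a))`, in `GT Φ` by `mem` (`n = 0`). If `gtau Φ (A a) = gdim (A a)` for all
`a`, then the range of `extOp W (e a) (adj (e a))` is in `tsub Φ (X × X) X.dim`; as
`∑ a b, extOp W (e a) (adj (e b)) = 1` and `extOp W (e a) (adj (e b))` kills `genU Φ (X × X) X.dim` for
`a ≠ b` (`Wt.kill`), `genU = tsub`, a contradiction to `L7h73.RL.s_NSX`. So `gtau Φ (A a) < gdim (A a)`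
for some `a`, and `L7h73.RL.s_NSE` gives the bound for `h (pw (A a) n) (pw (A a) n)`, which is
`h (pw (U a) (2 n + 1)) (pw (U a) (2 n + 1))`; and `h (pw A (n + 1)) ≤ dim A ^ 2 * h (pw A n)`. -/
def S_NSU (Φ : FrobSystem W p) (σ : W.K →+* ℂ) : Prop := 1 < p → IsAlgClosed W.K →
  (∀ Z : 𝒱.Obj, RiemannHyp Φ σ Z) → ∀ 𝒮 : Sys (GOb W), IsGeo 𝒮 → ∀ X : 𝒱.Obj,
    ¬ Module.End.IsSemisimple (frobAll Φ X) →
    ∃ (Λ : Type) (_ : Fintype Λ) (U : Λ → GOb W) (g : Λ → (W.Kˣ ⧸ CommGroup.torsion W.Kˣ)),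
      IsDec 𝒮 (GT Φ) (gone W X) U g ∧ ∃ (a₀ : Λ) (C : ℝ), 0 < C ∧ ∀ n : ℕ,
        (𝒮.h (𝒮.pw (U a₀) n) (𝒮.pw (U a₀) n) : ℝ) ≤
          C * (𝒮.dim (U a₀) : ℝ) ^ (2 * (n + 1)) / ((n : ℝ) + 1) ^ (3 / 2 : ℝ)

end Pool.Agent.L7h85.PW
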