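import Pool.Agent.L7h85.PW.Stm2
import Pool.Agent.L7h97.RL.Grd
import Pool.Agent.L7h73.RL.Jor
import Pool.Agent.L7h85.RL.Asm
import Pool.Agent.L7h94.SI.Frob

/-!
# The decomposition of a variety by the eigenvalues of the Frobenius endomorphism
-/

set_option linter.unusedVariables false
set_option linter.unusedSectionVars false

open CategoryTheory AlgebraicGeometry CategoryTheory.Limits

universe u v

namespace Pool.Agent.L7h85.PW

open Module

section Lin

open Polynomial Pool.Agent.L7h89.RL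

variable {K : Type*} [Field K] [IsAlgClosed K] {V : Type*} [AddCommGroup V] [Module K V]
  [Module.Finite K V]

/-- spectral decomposition -/
lemma exists_spectral' (F : Module.End K V) :
    ∃ (n : ℕ) (l : Fin n → K) (P : Fin n → Polynomial K), Function.Injective l ∧
      (∀ μ, F.HasEigenvalue μ ↔ ∃ i, l i = μ) ∧
      (∀ i, LinearMap.range (Polynomial.aeval F (P i)) ≠ ⊥) ∧
      (∀ i, Polynomial.aeval F (P i) * Polynomial.aeval F (P i) = Polynomial.aeval F (P i)) ∧
      (∀ i j, i ≠ j → Polynomial.aeval F (P i) * Polynomial.aeval F (P j) = 0) ∧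
      ∑ i, Polynomial.aeval F (P i) = 1 ∧
      ∀ i, IsNilpotent ((F - l i • 1) * Polynomial.aeval F (P i)) := by
  classical
  set E : Finset K := F.charpoly.roots.toFinset with hE
  have hmemE : ∀ μ, μ ∈ E ↔ F.HasEigenvalue μ := by
    intro μ
    rw [hE, Multiset.mem_toFinset, Polynomial.mem_roots F.charpoly_monic.ne_zero,
      Module.End.hasEigenvalue_iff_isRoot_charpoly]
  set l : Fin E.card → K := fun i => (E.equivFin.symm i : K) with hl
  have hinj : Function.Injective l := fun i j h => E.equivFin.symm.injective (Subtype.ext h)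
  choose P M h1 h2 h3 h4 using fun i => exists_spec F (l i)
  have hcP : ∀ (A B : Polynomial K), Commute (Polynomial.aeval F A) (Polynomial.aeval F B) := by
    intro A B
    rw [commute_iff_eq, ← map_mul, ← map_mul, mul_comm]
  have hFl : ∀ i, F - l i • 1 = Polynomial.aeval F (Polynomial.X - Polynomial.C (l i)) := by
    intro i
    rw [map_sub, Polynomial.aeval_X, Polynomial.aeval_C, Algebra.algebraMap_eq_smul_one]
  refine ⟨E.card, l, P, hinj, fun μ => ?_, fun i h0 => ?_, h1, ?_, ?_, ?_⟩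
  · rw [← hmemE]
    constructor
    · intro hμ
      refine ⟨E.equivFin ⟨μ, hμ⟩, ?_⟩
      rw [hl]; simp
    · rintro ⟨i, rfl⟩
      exact (E.equivFin.symm i).2
  · rw [h2] at h0
    have h5 : F.HasEigenvalue (l i) := (hmemE _).1 (E.equivFin.symm i).2
    have h6 : F.HasUnifEigenvalue (l i) ⊤ := h5.lt (by norm_num)
    exact h6 h0
  · intro i j hij
    apply LinearMap.ext
    intro x
    have e1 : (Polynomial.aeval F (P i) * Polynomial.aeval F (P j)) x ∈
        F.maxGenEigenspace (l i) := by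
      rw [← h2]
      exact ⟨_, rfl⟩
    have e2 : (Polynomial.aeval F (P i) * Polynomial.aeval F (P j)) x ∈
        F.maxGenEigenspace (l j) := by
      rw [← h2, (hcP _ _).eq]
      exact ⟨_, rfl⟩
    have hd := Module.End.disjoint_genEigenspace F (fun h => hij (hinj h) : l i ≠ l j) ⊤ ⊤
    rw [Submodule.disjoint_def] at hd
    exact hd _ e1 e2
  · rw [← sub_eq_zero]
    apply LinearMap.ext
    intro x
    have hx : x ∈ ⨆ μ : K, F.maxGenEigenspace μ := by
      rw [Module.End.iSup_maxGenEigenspace_eq_top]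
      trivial
    rw [LinearMap.zero_apply]
    induction hx using Submodule.iSup_induction' with
    | zero => rw [map_zero]
    | add x y _ _ hx hy => rw [map_add, hx, hy, add_zero]
    | mem μ x hx =>
      by_cases hμ : μ ∈ E
      · set i := E.equivFin ⟨μ, hμ⟩ with hi
        have hli : l i = μ := by rw [hl, hi]; simp
        rw [← hli, ← h2] at hx
        obtain ⟨y, rfl⟩ := hx
        rw [LinearMap.sub_apply, Module.End.one_apply, LinearMap.sum_apply,
          Finset.sum_eq_single i, ← Module.End.mul_apply, h1, sub_self]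
        · intro j _ hji
          rw [← Module.End.mul_apply]
          have e1 : (Polynomial.aeval F (P j) * Polynomial.aeval F (P i)) y ∈
              F.maxGenEigenspace (l j) := by
            rw [← h2]
            exact ⟨_, rfl⟩
          have e2 : (Polynomial.aeval F (P j) * Polynomial.aeval F (P i)) y ∈
              F.maxGenEigenspace (l i) := by
            rw [← h2, (hcP _ _).eq]
            exact ⟨_, rfl⟩
          have hd := Module.End.disjoint_genEigenspace F (fun h => hji (hinj h) : l j ≠ l i) ⊤ ⊤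
          rw [Submodule.disjoint_def] at hd
          exact hd _ e1 e2
        · intro h
          exact absurd (Finset.mem_univ i) h
      · have h5 : F.maxGenEigenspace μ = ⊥ := by
          by_contra h6
          apply hμ
          rw [hmemE]
          have h7 : F.HasUnifEigenvalue μ ⊤ := h6
          exact h7.lt (by norm_num)
        rw [h5, Submodule.mem_bot] at hx
        rw [hx, map_zero]
  · intro i
    refine ⟨M i + 1, ?_⟩
    have hc1 : Commute (F - l i • 1) (Polynomial.aeval F (P i)) := by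
      rw [hFl]
      exact hcP _ _
    rw [hc1.mul_pow, IsIdempotentElem.pow_succ_eq (M i) (h1 i), pow_succ', mul_assoc, h4, mul_zero]

/-- eigenvalues of powers -/
lemma hasEigenvalue_pow (F : Module.End K V) {s : ℕ} (hs : 0 < s) (μ : K) :
    (F ^ s).HasEigenvalue μ ↔ ∃ ν, F.HasEigenvalue ν ∧ ν ^ s = μ := by
  rw [Module.End.hasEigenvalue_iff_mem_spectrum, spectrum.map_pow_of_pos F hs]
  constructor
  · rintro ⟨ν, h1, h2⟩
    exact ⟨ν, Module.End.hasEigenvalue_iff_mem_spectrum.2 h1, h2⟩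
  · rintro ⟨ν, h1, h2⟩
    exact ⟨ν, Module.End.hasEigenvalue_iff_mem_spectrum.1 h1, h2⟩

/-- a power separating the classes modulo torsion -/
lemma exists_level (F : Module.End K V) : ∃ s : ℕ, 0 < s ∧ ∀ a b, F.HasEigenvalue a →
    F.HasEigenvalue b → (∃ N, 0 < N ∧ a ^ N = b ^ N) → a ^ s = b ^ s := by
  classical
  set E : Finset K := F.charpoly.roots.toFinset with hE
  have hmemE : ∀ μ, μ ∈ E ↔ F.HasEigenvalue μ := by
    intro μ
    rw [hE, Multiset.mem_toFinset, Polynomial.mem_roots F.charpoly_monic.ne_zero,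
      Module.End.hasEigenvalue_iff_isRoot_charpoly]
  have h : ∀ c : K × K, ∃ N : ℕ, 0 < N ∧ ((∃ N, 0 < N ∧ c.1 ^ N = c.2 ^ N) → c.1 ^ N = c.2 ^ N) := by
    intro c
    by_cases h : ∃ N, 0 < N ∧ c.1 ^ N = c.2 ^ N
    · obtain ⟨N, hN, h'⟩ := h
      exact ⟨N, hN, fun _ => h'⟩
    · exact ⟨1, one_pos, fun h' => absurd h' h⟩
  choose N hN1 hN2 using h
  refine ⟨∏ c ∈ E ×ˢ E, N c, Finset.prod_pos fun c _ => hN1 c, fun a b ha hb hab => ?_⟩
  have hmem : (a, b) ∈ E ×ˢ E := Finset.mem_product.2 ⟨(hmemE a).2 ha, (hmemE b).2 hb⟩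
  rw [← Finset.mul_prod_erase _ _ hmem, pow_mul, pow_mul, hN2 (a, b) hab]

end Lin

open Pool.Agent.H914 Pool.Agent.H447 Pool.Agent.W534 VarClass Obj WeilCohomology
open Pool.Agent.Y163 Pool.Agent.L7h85.RL Pool.Agent.R908 Pool.Agent.L7h89.RL Pool.Agent.L7h97.RL
open Pool.Agent.L7h85.GR (eigs)

variable {k : Type u} [Field k] {𝒱 : VarClass k} {ops : CycleOps 𝒱}
  {W : WeilCohomology.{u, v} ops} {X Y Z : 𝒱.Obj} {p : ℕ} (Φ : FrobSystem W p)

/-- the weight of the dual -/
lemma wt_dual {A : GOb W} {ν Q : W.Kˣ} (hA : Wt Φ X A ν)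
    (hQ : (Q : W.K) = (p : W.K) ^ (Φ.e X * A.Z.dim)) : Wt Φ X (gdual A) (Q * ν⁻¹) := by
  obtain ⟨s, t, hs, ht, hst, hc, hn⟩ := hA
  set F := frob Φ A.Z s with hF
  set c := (card Φ A.Z s : W.K) ^ A.Z.dim with hcdef
  have hc0 : c ≠ 0 := pow_ne_zero _ (card_ne Φ s)
  have e1 : adj F * F = c • (1 : Module.End W.K (W.H A.Z)) := adj_frob_mul Φ s
  have e2 : F * adj F = c • (1 : Module.End W.K (W.H A.Z)) := frob_mul_adj Φ s
  have hcQ : c = (Q : W.K) ^ t := by
    rw [hcdef, card_pow, hQ, ← pow_mul]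
    congr 1
    rw [hst]
    ring
  -- the commutation
  have h1 : adj A.e * adj F = adj F * adj A.e := by
    rw [← adj_mul, ← adj_mul, hc.eq]
  have hcomm : Commute F (adj A.e) := by
    have h2 : F * (adj A.e * adj F) * F = F * (adj F * adj A.e) * F := by rw [h1]
    have h3 : c • (F * adj A.e) = c • (adj A.e * F) := by
      calc c • (F * adj A.e) = F * (adj A.e * (c • 1)) := by
            rw [mul_smul_comm, mul_one, mul_smul_comm]
        _ = F * (adj A.e * adj F) * F := by rw [← e1]; simp only [mul_assoc]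
        _ = F * (adj F * adj A.e) * F := h2
        _ = (F * adj F) * (adj A.e * F) := by simp only [mul_assoc]
        _ = c • (adj A.e * F) := by rw [e2, smul_mul_assoc, one_mul]
    exact smul_right_injective _ hc0 h3
  have hcomm' : Commute (adj F) (adj A.e) := h1.symm
  refine ⟨s, t, hs, ht, hst, hcomm, ?_⟩
  change IsNilpotent ((F - (((Q * ν⁻¹ : W.Kˣ) : W.K) ^ t) • (1 : Module.End W.K (W.H A.Z))) *
    adj A.e)
  set a := (ν : W.K) ^ t with ha
  have ha0 : a ≠ 0 := pow_ne_zero _ ν.ne_zero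
  have hval : ((Q * ν⁻¹ : W.Kˣ) : W.K) ^ t = c * a⁻¹ := by
    rw [Units.val_mul, mul_pow, ← hcQ, ha, Units.val_inv_eq_inv_val, inv_pow]
  rw [hval]
  -- the nilpotent operator
  have hn1 : IsNilpotent ((adj F - a • 1) * adj A.e) := by
    obtain ⟨M, hM⟩ := hn
    refine ⟨M, ?_⟩
    have h2 : adj ((F - a • 1) * A.e) = adj A.e * (adj F - a • 1) := by
      rw [adj_mul, adj_sub, adj_smul, adj_one]
    have h3 : Commute (adj F - a • 1) (adj A.e) :=
      hcomm'.sub_left ((Commute.one_left _).smul_left _)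
    rw [h3.eq, ← h2, ← adj_pow, hM, adj_zero]
  have h4 : (F - (c * a⁻¹) • (1 : Module.End W.K (W.H A.Z))) * adj A.e =
      (-a⁻¹) • F * ((adj F - a • 1) * adj A.e) := by
    rw [smul_mul_assoc, ← mul_assoc, mul_sub, e2, sub_mul, sub_mul, mul_smul_comm, mul_one,
      smul_mul_assoc, smul_mul_assoc, smul_mul_assoc, one_mul, smul_sub, smul_smul, smul_smul]
    have h5 : -a⁻¹ * a = -1 := by field_simp
    rw [h5]
    simp only [neg_smul, one_smul, neg_mul]
    rw [mul_comm a⁻¹ c]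
    abel
  rw [h4]
  have h6 : Commute ((-a⁻¹) • F) ((adj F - a • 1) * adj A.e) := by
    apply Commute.smul_left
    apply Commute.mul_right
    · apply Commute.sub_right
      · rw [commute_iff_eq, e1, e2]
      · exact (Commute.one_right _).smul_right _
    · exact hcomm
  exact h6.isNilpotent_mul_left hn1

theorem s_GRX (σ : W.K →+* ℂ) : S_GRX Φ σ := by
  intro hp hK hRH 𝒮 hG X
  have hMU : S_MU W := s_mu
  have hpar := allPar Φ hp hK σ hRH
  set F := frob Φ X 1 with hF
  obtain ⟨s, hs, hsep⟩ := exists_level F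
  have hGs : frob Φ X s = F ^ s := by rw [hF, ← frob_mul_eq, one_mul]
  have hFmem : frob Φ X s ∈ KAlg W X := map_mem_KOp _
  obtain ⟨n, l, P, hinj, hl, hne, hid, hor, hsum, hnil⟩ := exists_spectral' (frob Φ X s)
  have hroot : ∀ i, ∃ ν, F.HasEigenvalue ν ∧ ν ^ s = l i := by
    intro i
    have h1 := (hl (l i)).2 ⟨i, rfl⟩
    rw [hGs] at h1
    exact (hasEigenvalue_pow F hs _).1 h1
  choose ν₀ hν₀ hνl using hroot
  have hF0 : ∀ {a : W.K}, F.HasEigenvalue a → a ≠ 0 := by
    intro a ha h0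
    obtain ⟨x, hx⟩ := ha.exists_hasEigenvector
    have h1 := hx.apply_eq_smul
    rw [h0, zero_smul] at h1
    exact hx.2 (map_iter_injective Φ 1 (h1.trans (map_zero _).symm))
  set ν : Fin n → W.Kˣ := fun i => Units.mk0 (ν₀ i) (hF0 (hν₀ i)) with hν
  have hmem : ∀ i, Polynomial.aeval (frob Φ X s) (P i) ∈ KOp W X X 0 := fun i => aeval_mem hFmem _
  set U : Fin n → GOb W := fun i => ⟨X, Polynomial.aeval (frob Φ X s) (P i), hmem i, hid i⟩ with hU
  have hWU : ∀ i, Wt Φ X (U i) (ν i) := by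
    intro i
    refine ⟨s, s, hs, hs, rfl, ?_, ?_⟩
    · change Commute (frob Φ X s) (Polynomial.aeval (frob Φ X s) (P i))
      have : Commute (Polynomial.aeval (frob Φ X s) (Polynomial.X : Polynomial W.K))
          (Polynomial.aeval (frob Φ X s) (P i)) := by
        rw [commute_iff_eq, ← map_mul, ← map_mul, mul_comm]
      rwa [Polynomial.aeval_X] at this
    · change IsNilpotent ((frob Φ X s - ((Units.mk0 (ν₀ i) (hF0 (hν₀ i)) : W.Kˣ) : W.K) ^ s •
        (1 : Module.End W.K (W.H X))) * Polynomial.aeval (frob Φ X s) (P i))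
      rw [Units.val_mk0, hνl]
      exact hnil i
  set g : Fin n → (W.Kˣ ⧸ CommGroup.torsion W.Kˣ) := fun i => QuotientGroup.mk (ν i) with hg
  -- words
  have hword : ∀ (m : ℕ) (x : Fin (m + 1) → Fin n), Wt Φ X (wd 𝒮 U m x) (∏ i, ν (x i)) ∧
      (wd 𝒮 U m x).Z.dim = (m + 1) * X.dim := by
    intro m
    induction m with
    | zero =>
      intro x
      refine ⟨?_, ?_⟩
      · rw [Fin.prod_univ_one]
        exact hWU _
      · change X.dim = _
        ring
    | succ m ih =>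
      intro x
      obtain ⟨h1, h2⟩ := ih (Fin.tail x)
      have e1 : wd 𝒮 U (m + 1) x = gten (U (x 0)) (wd 𝒮 U m (Fin.tail x)) := hG.ten_eq _ _
      rw [e1]
      refine ⟨?_, ?_⟩
      · rw [Fin.prod_univ_succ]
        exact Wt.mul Φ (hWU (x 0)) h1
      · change (X.prod (wd 𝒮 U m (Fin.tail x)).Z).dim = _
        rw [dim_prod, h2]
        ring
  have hp0 : ((p : W.K)) ≠ 0 := cast_p_ne Φ
  have hpair : ∀ (m : ℕ) (x y : Fin (m + 1) → Fin n),
      (𝒮.ten (wd 𝒮 U m x) (𝒮.dual (wd 𝒮 U m y))).Z.dim = 2 * ((m + 1) * X.dim) ∧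
      Wt Φ X (𝒮.ten (wd 𝒮 U m x) (𝒮.dual (wd 𝒮 U m y)))
        ((∏ i, ν (x i)) * (Units.mk0 ((p : W.K) ^ (Φ.e X * ((m + 1) * X.dim)))
          (pow_ne_zero _ hp0) * (∏ i, ν (y i))⁻¹)) := by
    intro m x y
    rw [hG.dual_eq, hG.ten_eq]
    obtain ⟨h1, h2⟩ := hword m x
    obtain ⟨h3, h4⟩ := hword m y
    refine ⟨?_, ?_⟩
    · change ((wd 𝒮 U m x).Z.prod (wd 𝒮 U m y).Z).dim = _
      rw [dim_prod, h2, h4]
      ring
    · refine Wt.mul Φ h1 (wt_dual Φ h3 ?_)
      rw [Units.val_mk0, h4]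
  have hkt : ∀ (m : ℕ) (x y : Fin (m + 1) → Fin n), ∏ i, g (x i) = ∏ i, g (y i) ↔
      ∃ N, 0 < N ∧ (((∏ i, ν (x i)) * (Units.mk0 ((p : W.K) ^ (Φ.e X * ((m + 1) * X.dim)))
          (pow_ne_zero _ hp0) * (∏ i, ν (y i))⁻¹) : W.Kˣ) : W.K) ^ N =
        (p : W.K) ^ (Φ.e X * ((m + 1) * X.dim) * N) := by
    intro m x y
    have e1 : ∀ x : Fin (m + 1) → Fin n, ∏ i, g (x i) =
        QuotientGroup.mk (∏ i, ν (x i)) := by
      intro x
      rw [hg]
      exact (map_prod (QuotientGroup.mk' (CommGroup.torsion W.Kˣ)) (fun i => ν (x i))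
        Finset.univ).symm
    rw [e1, e1, Pool.Agent.L7h94.SI.kt_eq]
    refine exists_congr fun N => and_congr_right fun _ => ?_
    set a := ∏ i, ν (x i)
    set b := ∏ i, ν (y i)
    set Q : W.Kˣ := Units.mk0 ((p : W.K) ^ (Φ.e X * ((m + 1) * X.dim))) (pow_ne_zero _ hp0) with hQ
    have e2 : (p : W.K) ^ (Φ.e X * ((m + 1) * X.dim) * N) = ((Q ^ N : W.Kˣ) : W.K) := by
      rw [hQ, Units.val_pow_eq_pow_val, Units.val_mk0, ← pow_mul]
    rw [e2, ← Units.val_pow_eq_pow_val, Units.val_inj, mul_left_comm, mul_pow, mul_eq_left,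
      mul_pow, inv_pow, mul_inv_eq_one]
  refine ⟨Fin n, inferInstance, U, g, ⟨?_, ?_, ?_, ?_, ?_, ?_⟩, ?_⟩
  · intro C
    simp only [hG.h_eq]
    exact gh_sum hMU hpar (Z := X) Finset.univ
      (fun a => Polynomial.aeval (frob Φ X s) (P a)) hmem hid hor C
      (gone W X).e hsum.symm (gone W X).mem (gone W X).idem
  · rw [hG.dim_eq]
    simp only [hG.dim_eq]
    have h1 := L7h73.RL.finrank_sum (fun a => Polynomial.aeval (frob Φ X s) (P a)) (by
      intro i j
      by_cases h : i = j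
      · rw [if_pos h, ← h, hid]
      · rw [if_neg h, hor i j h]) 1 (fun i => by rw [one_mul, mul_one])
    rw [one_mul, hsum] at h1
    exact h1
  · intro a
    rw [hG.dim_eq]
    change 0 < finrank W.K (LinearMap.range (Polynomial.aeval (frob Φ X s) (P a)))
    rw [Nat.pos_iff_ne_zero]
    intro h0
    exact hne a (Submodule.finrank_eq_zero.1 h0)
  · intro i j hij
    have h1 : (QuotientGroup.mk (ν i) : W.Kˣ ⧸ CommGroup.torsion W.Kˣ) =
      QuotientGroup.mk (ν j) := hij
    rw [Pool.Agent.L7h94.SI.kt_eq] at h1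
    obtain ⟨N, hN, h2⟩ := h1
    apply hinj
    rw [← hνl, ← hνl]
    refine hsep _ _ (hν₀ i) (hν₀ j) ⟨N, hN, ?_⟩
    have h3 := congrArg Units.val h2
    rw [Units.val_pow_eq_pow_val, Units.val_pow_eq_pow_val] at h3
    exact h3
  · intro m x y hxy
    obtain ⟨N, hN, h1⟩ := (hkt m x y).1 hxy
    obtain ⟨h2, h3⟩ := hpair m x y
    exact Wt.GT Φ hp hRH h3 h2 hN h1
  · intro m x y hxy S hS hT
    obtain ⟨h2, h3⟩ := hpair m x y
    rw [hG.h_eq]
    refine gh_zero Φ hMU hpar h2 (𝒮.ten (wd 𝒮 U m x) (𝒮.dual (wd 𝒮 U m y))).mem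
      (𝒮.ten (wd 𝒮 U m x) (𝒮.dual (wd 𝒮 U m y))).idem (h3.kill Φ ?_) hT
    intro N hN h4
    exact hxy ((hkt m x y).2 ⟨N, hN, h4⟩)
  · have hall : ∀ v, frobAll Φ X v = F v := by
      intro v
      change W.map (Φ.Fr X) v = W.map (𝟙 X ≫ Φ.Fr X) v
      rw [Category.id_comp]
    ext c
    constructor
    · rintro ⟨i, rfl⟩
      refine ⟨ν i, ?_, rfl⟩
      obtain ⟨x, hx⟩ := (hν₀ i).exists_hasEigenvector
      refine ⟨x, trivial, hx.2, ?_⟩
      rw [hall]
      exact hx.apply_eq_smul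
    · rintro ⟨x, ⟨v, -, hv0, hv⟩, rfl⟩
      rw [hall] at hv
      have h1 : F.HasEigenvalue (x : W.K) :=
        Module.End.hasEigenvalue_of_hasEigenvector ⟨Module.End.mem_eigenspace_iff.2 hv, hv0⟩
      have h2 : (frob Φ X s).HasEigenvalue ((x : W.K) ^ s) := by
        rw [hGs]
        exact (hasEigenvalue_pow F hs _).2 ⟨_, h1, rfl⟩
      obtain ⟨i, hi⟩ := (hl _).1 h2
      refine ⟨i, ?_⟩
      change (QuotientGroup.mk (ν i) : W.Kˣ ⧸ CommGroup.torsion W.Kˣ) = _
      rw [Pool.Agent.L7h94.SI.kt_eq]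
      refine ⟨s, hs, ?_⟩
      apply Units.ext
      rw [Units.val_pow_eq_pow_val, Units.val_pow_eq_pow_val, ← hi]
      exact hνl i

end Pool.Agent.L7h85.PW
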