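import Pool.Agent.L7h85.GR.Defs

/-!
# The rank of the group of the Frobenius eigenvalues
-/

set_option autoImplicit false

universe u v

namespace Pool.Agent.L7h85.PW

open Pool.Agent.H914 VarClass Obj WeilCohomology Pool.Agent.W534 Pool.Agent.R908
open Pool.Agent.L7h85.GR

/-- the rank of the multiplicative group generated by the non-zero elements of `E` -/
noncomputable def unitsRank {K : Type v} [Field K] (E : Set K) : ℕ :=
  Module.finrank ℤ (Additive (Subgroup.closure {x : Kˣ | (x : K) ∈ E}))

/-- the rank of the group generated by the eigenvalues of the Frobenius endomorphism on the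
cohomology of `X` -/
noncomputable def frobRank {k : Type u} [Field k] {𝒱 : VarClass k} {ops : CycleOps 𝒱}
    {W : WeilCohomology.{u, v} ops} {p : ℕ} (Φ : FrobSystem W p) (X : 𝒱.Obj) : ℕ :=
  unitsRank (eigs (frobAll Φ X) ⊤)

end Pool.Agent.L7h85.PW
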