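import Pool.Agent.L7h85.PW.Defs

/-!
# Numbers of Tate classes, upper bounds for sequences
-/

set_option autoImplicit false

universe u v

namespace Pool.Agent.L7h85.PW

open Pool.Agent.H914 VarClass Obj WeilCohomology Pool.Agent.W534

/-- the dimension of the space spanned by the Tate classes of codimension `j` -/
noncomputable def tateNum {k : Type u} [Field k] {𝒱 : VarClass k} {ops : CycleOps 𝒱}
    {W : WeilCohomology.{u, v} ops} {p : ℕ} (Φ : FrobSystem W p) (Z : 𝒱.Obj) (j : ℕ) : ℕ :=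
  Module.finrank W.K (Submodule.span W.K {c : W.H Z | IsTate Φ Z j c})

/-- the square of the total Betti number of `X` -/
noncomputable def bettiSq {k : Type u} [Field k] {𝒱 : VarClass k} {ops : CycleOps 𝒱}
    (W : WeilCohomology.{u, v} ops) (X : 𝒱.Obj) : ℕ :=
  Module.finrank W.K (W.H X) ^ 2

/-- `f n ≤ C a ^ (n + 1) / (n + 1) ^ (ρ / 2)` for all `n` -/
def GrowthLE (f : ℕ → ℕ) (a ρ : ℕ) : Prop :=
  ∃ C : ℝ, ∀ n : ℕ, (f n : ℝ) ≤ C * (a : ℝ) ^ (n + 1) / ((n + 1 : ℕ) : ℝ) ^ ((ρ : ℝ) / 2)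

end Pool.Agent.L7h85.PW
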