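import Pool.Agent.L7h85.PW.Geo
import Pool.Agent.L7h60.PW.Blk
import Pool.Agent.L7h35.PW.Fin2

/-!
# The exact growth of the orders of the poles: final form
-/

set_option linter.unusedVariables false
set_option linter.unusedSectionVars false

open CategoryTheory AlgebraicGeometry CategoryTheory.Limits Filter Topology

universe u v w

namespace Pool.Agent.L7h85.PW

open Pool.Agent.H914 Pool.Agent.H447 Pool.Agent.W534 VarClass Obj WeilCohomology Module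
open Pool.Agent.Y163 Pool.Agent.L7h85.RL Pool.Agent.R908
open Pool.Agent.L7h85.GR (eigs Growth)

variable {k : Type u} [Field k] {𝒱 : VarClass k} {ops : CycleOps 𝒱}
  {W : WeilCohomology.{u, v} ops} {X Y Z : 𝒱.Obj} {p : ℕ}

/-- a convergent sequence divided by one that tends to a positive number -/
theorem growth_div {z r : ℕ → ℕ} {a ρ N : ℕ} {κ : ℝ} (hN : 0 < N) (hz : Growth z a ρ κ)
    (hr : ∀ n, 0 < r n) (h : Tendsto (fun n => (z n : ℝ) / r n) atTop (𝓝 (N : ℝ)))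
    (hzp : ∀ n, 0 < z n) : Growth r a ρ (κ / N) := by
  have hN' : (N : ℝ) ≠ 0 := Nat.cast_ne_zero.2 hN.ne'
  refine (hz.div h hN').congr fun n => ?_
  have h1 : (r n : ℝ) ≠ 0 := Nat.cast_ne_zero.2 (hr n).ne'
  have h2 : (z n : ℝ) ≠ 0 := Nat.cast_ne_zero.2 (hzp n).ne'
  rw [Pi.div_apply]
  field_simp

/-- the upper bound for the ranks -/
theorem upper_of_growth {z r : ℕ → ℕ} {a ρ : ℕ} {κ c : ℝ} (ha : 0 < a) (hz : Growth z a ρ κ)
    (hc : 0 < c) (h : ∀ n : ℕ, c * √((n : ℝ) + 1) * r n ≤ z n) :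
    ∃ C : ℝ, ∀ n : ℕ, (r n : ℝ) ≤
      C * (a : ℝ) ^ (n + 1) / ((n + 1 : ℕ) : ℝ) ^ (((ρ : ℝ) + 1) / 2) := by
  obtain ⟨B, hB⟩ := hz.bddAbove_range
  refine ⟨B / c, fun n => ?_⟩
  have h1 : (z n : ℝ) * ((n + 1 : ℕ) : ℝ) ^ ((ρ : ℝ) / 2) / (a : ℝ) ^ (n + 1) ≤ B := hB ⟨n, rfl⟩
  have hn : (0 : ℝ) < ((n + 1 : ℕ) : ℝ) := by positivity
  have hap : (0 : ℝ) < (a : ℝ) ^ (n + 1) := by positivity
  rw [div_le_iff₀ hap] at h1
  have h2 := h n
  have e1 : ((n + 1 : ℕ) : ℝ) ^ (((ρ : ℝ) + 1) / 2) =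
      √((n : ℝ) + 1) * ((n + 1 : ℕ) : ℝ) ^ ((ρ : ℝ) / 2) := by
    rw [Real.sqrt_eq_rpow, show ((n : ℝ) + 1) = ((n + 1 : ℕ) : ℝ) by push_cast; ring,
      ← Real.rpow_add hn]
    congr 1
    ring
  rw [e1, le_div_iff₀ (by positivity), div_mul_eq_mul_div, le_div_iff₀ hc]
  calc (r n : ℝ) * (√((n : ℝ) + 1) * ((n + 1 : ℕ) : ℝ) ^ ((ρ : ℝ) / 2)) * c =
      (c * √((n : ℝ) + 1) * r n) * ((n + 1 : ℕ) : ℝ) ^ ((ρ : ℝ) / 2) := by ring
    _ ≤ z n * ((n + 1 : ℕ) : ℝ) ^ ((ρ : ℝ) / 2) := by gcongr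
    _ ≤ B * (a : ℝ) ^ (n + 1) := h1

/-- **The law of the poles.** -/
theorem pole_law (hp : 1 < p) (hK : IsAlgClosed W.K) (Φ : FrobSystem W p) (σ : W.K →+* ℂ)
    (hRH : ∀ Z : 𝒱.Obj, RiemannHyp Φ σ Z) [hX : Nontrivial (W.H X)] :
    ∃ (z r : ℕ → ℕ) (κ : ℝ),
      (∀ n, PoleOrderIs Φ σ (sq X n) ((n + 1) * X.dim) (z n)) ∧
      (∀ n, r n = numRank ops (sq X n) ((n + 1) * X.dim)) ∧
      (∀ n, 0 < r n ∧ r n ≤ z n) ∧
      0 < κ ∧ Growth z (finrank W.K (W.H X) ^ 2) (frobRank Φ X) κ ∧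
      ((∃ N : ℕ, 0 < N ∧ (∀ n, z n ≤ N * r n) ∧
        Growth r (finrank W.K (W.H X) ^ 2) (frobRank Φ X) (κ / N)) ∨
      ∃ C : ℝ, ∀ n : ℕ, (r n : ℝ) ≤ C * ((finrank W.K (W.H X) ^ 2 : ℕ) : ℝ) ^ (n + 1) /
        ((n + 1 : ℕ) : ℝ) ^ (((frobRank Φ X : ℝ) + 1) / 2)) := by
  have hX0 : 0 < finrank W.K (W.H X) := finrank_pos
  obtain ⟨⟨κ, hκ, hz⟩, hdich⟩ := pole_core hp hK Φ σ hRH hX0 L7h60.PW.s_BLK' L7h35.PW.s_FIN2
  have hpar : par (W.isInternal X) ∈ KOp W X X 0 := par_mem_of_RH Φ hp σ (hRH X)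
  have hpos : ∀ n, 0 < mrank W X n := by
    intro n
    have h1 := mrank_growth hpar n
    apply Nat.pos_of_ne_zero
    intro h0
    rw [h0, zero_mul] at h1
    have h2 : 0 < (finrank W.K (W.H X) ^ 2) ^ (n + 1) := by positivity
    omega
  have hle : ∀ n, mrank W X n ≤ finrank W.K (genU Φ (sq X n) ((n + 1) * X.dim)) := fun n =>
    (kRank_le _ _).trans (Submodule.finrank_mono
      ((span_le_tsub Φ _ _).trans (tsub_le_genU Φ _ _)))
  refine ⟨fun n => finrank W.K (genU Φ (sq X n) ((n + 1) * X.dim)), mrank W X, κ,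
    fun n => poleOrderIs hp (hRH _) (by rw [dim_sq]; omega), fun n => (numRank_sq X n).symm,
    fun n => ⟨hpos n, hle n⟩, hκ, hz, ?_⟩
  rcases hdich with ⟨N, hN⟩ | ⟨c, hc, h⟩
  · left
    rcases Y163.index_law hpar hX0 (fun n => genU Φ (sq X n) ((n + 1) * X.dim))
      ((genFam Φ).stable_sq X) with ⟨d, hd1, hd2⟩ | h
    · have hd0 : 0 < d := by
        apply Nat.pos_of_ne_zero
        intro h0
        have h1 := hd1 0
        rw [h0, zero_mul] at h1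
        have h2 := hpos 0
        have h3 := hle 0
        omega
      exact ⟨d, hd0, hd1, growth_div hd0 hz hpos hd2 fun n => (hpos n).trans_le (hle n)⟩
    · exfalso
      obtain ⟨n, hn⟩ := (h.eventually_gt_atTop (N : ℝ)).exists
      have h1 := hN n
      have h2 : (0 : ℝ) < mrank W X n := by exact_mod_cast hpos n
      rw [lt_div_iff₀ h2] at hn
      have h3 : ((finrank W.K (genU Φ (sq X n) ((n + 1) * X.dim)) : ℕ) : ℝ) ≤
          N * mrank W X n := by exact_mod_cast h1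
      linarith
  · right
    exact upper_of_growth (by positivity) hz hc h

end Pool.Agent.L7h85.PW
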