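import Pool.Agent.L7h85.PW.Tcn

/-!
# The number of the Tate classes on the powers of a variety: the formula
-/

set_option linter.unusedVariables false
set_option linter.unusedSectionVars false

open CategoryTheory AlgebraicGeometry CategoryTheory.Limits Filter Topology

universe u v w

namespace Pool.Agent.L7h85.PW

open Pool.Agent.H914 Pool.Agent.H447 Pool.Agent.W534 VarClass Obj WeilCohomology Module
open Pool.Agent.Y163 Pool.Agent.L7h85.RL Pool.Agent.R908 Pool.Agent.L7h89.RL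
open Pool.Agent.L7h85.GR (eigs Growth)

section comb

variable {ι : Type*} [Fintype ι]

/-- pairs of words of length `n + 1` and words of length `2 n + 2` -/
def pairEquiv (ι : Type*) (n : ℕ) : (Fin (n + 1) → ι × ι) ≃ (Fin (n + n + 1 + 1) → ι) :=
  ((Equiv.arrowCongr (Equiv.refl (Fin (n + 1))) (finTwoArrowEquiv ι).symm).trans
    (Equiv.curry (Fin (n + 1)) (Fin 2) ι).symm).trans
      (Equiv.arrowCongr (finProdFinEquiv.trans (finCongr (by ring))) (Equiv.refl ι))

lemma pairEquiv_prod {M : Type*} [CommMonoid M] (n : ℕ) (f : Fin (n + 1) → ι × ι) (l : ι → M) :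
    ∏ k, l (pairEquiv ι n f k) = ∏ k, (l (f k).1 * l (f k).2) := by
  rw [← (finProdFinEquiv.trans (finCongr (show (n + 1) * 2 = n + n + 1 + 1 by ring))).prod_comp,
    Fintype.prod_prod_type]
  refine Finset.prod_congr rfl fun a _ => ?_
  rw [Fin.prod_univ_two]
  congr 2
  · simp [pairEquiv, Equiv.arrowCongr]
  · simp [pairEquiv, Equiv.arrowCongr]

lemma pairEquiv_sum {M : Type*} [AddCommMonoid M] (n : ℕ) (f : Fin (n + 1) → ι × ι) (l : ι → M) :
    ∑ k, l (pairEquiv ι n f k) = ∑ k, (l (f k).1 + l (f k).2) := by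
  rw [← (finProdFinEquiv.trans (finCongr (show (n + 1) * 2 = n + n + 1 + 1 by ring))).sum_comp,
    Fintype.sum_prod_type]
  refine Finset.sum_congr rfl fun a _ => ?_
  rw [Fin.sum_univ_two]
  congr 2
  · simp [pairEquiv, Equiv.arrowCongr]
  · simp [pairEquiv, Equiv.arrowCongr]

end comb

variable {k : Type u} [Field k] {𝒱 : VarClass k} {ops : CycleOps 𝒱}
  {W : WeilCohomology.{u, v} ops} {X Y Z : 𝒱.Obj} {p : ℕ} (Φ : FrobSystem W p)

lemma kappa_EE (X : 𝒱.Obj) (n : ℕ) : EE Φ X (n + 1) ∘ₗ (kappa W X (Y163.pw X n)).toLinearMap =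
    (kappa W X (Y163.pw X n)).toLinearMap ∘ₗ TensorProduct.map (EE Φ X 0) (EE Φ X n) := by
  apply LinearMap.ext
  intro x
  exact congrArg (fun y => kappa W X (Y163.pw X n) (TensorProduct.map (frob Φ X 1) (EE Φ X n) y))
    ((kappa W X (Y163.pw X n)).symm_apply_apply x)

lemma kappa_ext (P : Module.End W.K (W.H Y)) (Q : Module.End W.K (W.H Z)) (x : W.H (Y.prod Z)) :
    (kappa W Y Z).symm (extOp W P Q x) = TensorProduct.map P Q ((kappa W Y Z).symm x) :=
  (kappa W Y Z).symm_apply_apply _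

open Classical in
/-- **The number of the Tate classes in the middle degree on the even powers of `X`.** -/
theorem tate_count (hKERN : S_KERN.{v, v}) (hp : 1 < p) (hK : IsAlgClosed W.K) (σ : W.K →+* ℂ)
    (hRH : ∀ Z : 𝒱.Obj, RiemannHyp Φ σ Z) (X : 𝒱.Obj) :
    ∃ (ι : Type) (_ : Fintype ι) (l : ι → W.Kˣ) (h : ι → ℤ) (Q : W.Kˣ) (s : ι ≃ ι),
      Fintype.card ι = finrank W.K (W.H X) ∧
      (∀ i, l (s i) = Q / l i) ∧ (∀ i, h (s i) = -h i) ∧
      (Set.range fun i => (QuotientGroup.mk (l i) : W.Kˣ ⧸ CommGroup.torsion W.Kˣ)) =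
        {c | ∃ x : W.Kˣ, (x : W.K) ∈ eigs (frobAll Φ X) ⊤ ∧ c = QuotientGroup.mk x} ∧
      (¬ Module.End.IsSemisimple (frobAll Φ X) → ∃ i j, l i = l j ∧ h i ≠ h j) ∧
      ∀ n, finrank W.K (tsub Φ (Y163.sq X n) ((n + 1) * X.dim)) =
        (Finset.univ.filter fun f : Fin (n + 1) → ι × ι =>
          ∏ k, ((QuotientGroup.mk (l (f k).1) : W.Kˣ ⧸ CommGroup.torsion W.Kˣ) *
            QuotientGroup.mk (l (f k).2)) = (QuotientGroup.mk Q) ^ (n + 1) ∧
          (∑ k, (h (f k).1 + h (f k).2) = 0 ∨ ∑ k, (h (f k).1 + h (f k).2) = 1)).card := by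
  have hchar : CharZero W.K := inferInstance
  set F := frob Φ X 1 with hF
  have hall : frobAll Φ X = F := by
    apply LinearMap.ext
    intro v
    change W.map (Φ.Fr X) v = W.map (𝟙 X ≫ Φ.Fr X) v
    rw [Category.id_comp]
  -- the operators on the powers
  obtain ⟨ι, hι, l₀, h, hcard, hl, hns, hsym, hdet, hker⟩ := hKERN W.K
    (fun n => W.H (Y163.pw X n)) (fun n => kappa W X (Y163.pw X n)) (EE Φ X)
    (kappa_EE Φ X) (map_iter_injective Φ 1)
  have hF0 : ∀ {a : W.K}, F.HasEigenvalue a → a ≠ 0 := by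
    intro a ha h0
    obtain ⟨x, hx⟩ := ha.exists_hasEigenvector
    have h1 := hx.apply_eq_smul
    rw [h0, zero_smul] at h1
    exact hx.2 (map_iter_injective Φ 1 (h1.trans (map_zero _).symm))
  have hl0 : ∀ i, l₀ i ≠ 0 := fun i => hF0 ((hl _).1 ⟨i, rfl⟩)
  set l : ι → W.Kˣ := fun i => Units.mk0 (l₀ i) (hl0 i) with hldef
  have hq0 : ((card Φ X 1 : W.K) ^ X.dim) ≠ 0 := pow_ne_zero _ (card_ne Φ 1)
  set q : W.K := (card Φ X 1 : W.K) ^ X.dim with hq
  set Q : W.Kˣ := Units.mk0 q hq0 with hQ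
  -- the duality
  obtain ⟨s, hs⟩ := exists_perm (fun i => (l₀ i, h i)) (fun i => (q / l₀ i, -h i)) (by
    rintro ⟨c, j⟩
    by_cases hc : c = 0
    · have e1 : (Finset.univ.filter fun i => (l₀ i, h i) = (c, j)) = ∅ := by
        rw [Finset.filter_eq_empty_iff]
        intro i _ hi
        exact hl0 i ((Prod.ext_iff.1 hi).1.trans hc)
      have e2 : (Finset.univ.filter fun i => (q / l₀ i, -h i) = (c, j)) = ∅ := by
        rw [Finset.filter_eq_empty_iff]
        intro i _ hi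
        exact div_ne_zero hq0 (hl0 i) ((Prod.ext_iff.1 hi).1.trans hc)
      rw [e1, e2]
    · have e1 := hdet c (q / c) (fun m => finrank_dual F hq0 hc (adj_frob_mul Φ 1)
        (frob_mul_adj Φ 1) m) j
      have e2 := hsym (q / c) j
      have e3 : (Finset.univ.filter fun i => (l₀ i, h i) = (c, j)) =
          Finset.univ.filter fun i => l₀ i = c ∧ h i = j := by
        ext i; simp only [Finset.mem_filter, Prod.mk.injEq]
      have e4 : (Finset.univ.filter fun i => (q / l₀ i, -h i) = (c, j)) =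
          Finset.univ.filter fun i => l₀ i = q / c ∧ h i = -j := by
        ext i
        simp only [Finset.mem_filter, Prod.mk.injEq, Finset.mem_univ, true_and]
        constructor
        · rintro ⟨h1, h2⟩
          refine ⟨?_, by omega⟩
          rw [← h1, div_div_cancel₀ hq0]
        · rintro ⟨h1, h2⟩
          refine ⟨?_, by omega⟩
          rw [h1, div_div_cancel₀ hq0]
      rw [e3, e4]
      exact e1.trans e2)
  refine ⟨ι, hι, l, h, Q, s, hcard, fun i => ?_, fun i => ?_, ?_, ?_, ?_⟩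
  · have h1 := (Prod.ext_iff.1 (hs i)).1
    simp only at h1
    apply Units.ext
    rw [Units.val_div_eq_div_val]
    change l₀ (s i) = q / l₀ i
    rw [← h1, div_div_cancel₀ hq0]
  · have h1 := (Prod.ext_iff.1 (hs i)).2
    simp only at h1
    omega
  · ext c
    constructor
    · rintro ⟨i, rfl⟩
      refine ⟨l i, ?_, rfl⟩
      obtain ⟨x, hx⟩ := ((hl _).1 ⟨i, rfl⟩ : F.HasEigenvalue (l₀ i)).exists_hasEigenvector
      refine ⟨x, trivial, hx.2, ?_⟩
      rw [hall]
      exact hx.apply_eq_smul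
    · rintro ⟨x, ⟨v, -, hv0, hv⟩, rfl⟩
      rw [hall] at hv
      have h1 : F.HasEigenvalue (x : W.K) :=
        Module.End.hasEigenvalue_of_hasEigenvector ⟨Module.End.mem_eigenspace_iff.2 hv, hv0⟩
      obtain ⟨i, hi⟩ := (hl _).2 h1
      refine ⟨i, ?_⟩
      change QuotientGroup.mk (l i) = _
      congr 1
      exact Units.ext hi
  · intro hss
    rw [hall] at hss
    obtain ⟨i, j, h1, h2⟩ := hns hss
    exact ⟨i, j, Units.ext h1, h2⟩
  · intro n
    obtain ⟨A, B, hA, hB, hAB, hfr⟩ := level_sq Φ X n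
    obtain ⟨S, hS, htsub⟩ := exists_tsub (Z := Y163.sq X n) Φ hp (hRH _) ((n + 1) * X.dim)
    -- the iso with the power
    obtain ⟨N, hN⟩ : ∃ N, n + n + 1 = N := ⟨_, rfl⟩
    obtain ⟨ψ, hψ⟩ := iso_pairs (fun n => W.H (Y163.pw X n))
      (fun n => kappa W X (Y163.pw X n)) (EE Φ X) (kappa_EE Φ X) n n N hN
    obtain ⟨D, hD⟩ : ∃ D : Module.End W.K (W.H (Y163.sq X n)),
      D = extOp W (EE Φ X n) (EE Φ X n) := ⟨_, rfl⟩
    rw [← hD] at hfr
    let φ : W.H (Y163.sq X n) ≃ₗ[W.K] W.H (Y163.pw X N) :=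
      (kappa W (Y163.pw X n) (Y163.pw X n)).symm.trans ψ
    have hφ : ∀ x, φ (D x) = EE Φ X N (φ x) := by
      intro x
      rw [hD]
      change ψ ((kappa W (Y163.pw X n) (Y163.pw X n)).symm
        (extOp W (EE Φ X n) (EE Φ X n) x)) = EE Φ X N (ψ ((kappa W (Y163.pw X n)
          (Y163.pw X n)).symm x))
      exact (congrArg ψ (kappa_ext (EE Φ X n) (EE Φ X n) x)).trans (hψ _)
    have hφm : ∀ (m : ℕ) x, φ ((D ^ m) x) = (EE Φ X N ^ m) (φ x) := by
      intro m
      induction m with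
      | zero => intro x; rfl
      | succ m ih => 
        intro x
        rw [pow_succ, pow_succ, Module.End.mul_apply, Module.End.mul_apply, ih, hφ]
    -- the torsion level
    have hlev : ∀ f : Fin (N + 1) → ι, ∃ M : ℕ, 0 < M ∧ ((∃ M, 0 < M ∧
        (∏ k, l (f k)) ^ M = (Q ^ (n + 1)) ^ M) → (∏ k, l (f k)) ^ M = (Q ^ (n + 1)) ^ M) := by
      intro f
      by_cases h : ∃ M, 0 < M ∧ (∏ k, l (f k)) ^ M = (Q ^ (n + 1)) ^ M
      · obtain ⟨M, hM, h'⟩ := h
        exact ⟨M, hM, fun _ => h'⟩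
      · exact ⟨1, one_pos, fun h' => absurd h' h⟩
    choose M₁ hM₁ hM₁' using hlev
    set m := ∏ f, M₁ f with hm
    have hmpos : 0 < m := Finset.prod_pos fun f _ => hM₁ f
    set M := B * (S * m) with hM
    have hMpos : 0 < M := Nat.mul_pos hB (Nat.mul_pos hS hmpos)
    have hiff : ∀ f : Fin (N + 1) → ι, ((∏ k, l₀ (f k)) ^ M = (q ^ (n + 1)) ^ M) ↔
        (QuotientGroup.mk (∏ k, l (f k)) : W.Kˣ ⧸ CommGroup.torsion W.Kˣ) =
          QuotientGroup.mk (Q ^ (n + 1)) := by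
      intro f
      rw [Pool.Agent.L7h94.SI.kt_eq]
      have e1 : ((∏ k, l₀ (f k)) ^ M = (q ^ (n + 1)) ^ M) ↔
          (∏ k, l (f k)) ^ M = (Q ^ (n + 1)) ^ M := by
        rw [← Units.val_inj, Units.val_pow_eq_pow_val, Units.val_pow_eq_pow_val,
          Units.val_pow_eq_pow_val, Units.coe_prod]
        rfl
      rw [e1]
      constructor
      · intro h
        exact ⟨M, hMpos, h⟩
      · intro h
        have h1 := hM₁' f h
        have h2 : M = M₁ f * (B * (S * ∏ f ∈ Finset.univ.erase f, M₁ f)) := by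
          rw [hM, hm, ← Finset.mul_prod_erase _ _ (Finset.mem_univ f)]
          ring
        rw [h2, pow_mul _ (M₁ f), pow_mul _ (M₁ f), h1]
    have hdim : ((card Φ (Y163.sq X n) (S * (A * m)) : W.K) ^ ((n + 1) * X.dim)) =
        (q ^ (n + 1)) ^ M := by
      rw [card_pow, hq, card_pow, ← pow_mul, ← pow_mul]
      congr 1
      calc Φ.e (Y163.sq X n) * (S * (A * m)) * ((n + 1) * X.dim) =
          (Φ.e (Y163.sq X n) * A) * (S * m) * ((n + 1) * X.dim) := by ring
        _ = (Φ.e X * B) * (S * m) * ((n + 1) * X.dim) := by rw [hAB]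
        _ = Φ.e X * 1 * X.dim * ((n + 1) * M) := by rw [hM]; ring
    have hfrM : frob Φ (Y163.sq X n) (S * (A * m)) = D ^ M := by
      rw [show S * (A * m) = A * (S * m) by ring, frob_mul_eq, hfr]
      exact (pow_mul D B (S * m)).symm
    rw [htsub (A * m) (Nat.mul_pos hA hmpos), hdim, hfrM,
      finrank_ker_conj φ (hφm M) ((q ^ (n + 1)) ^ M)]
    obtain ⟨T, hT, hTsum⟩ := finrank_ker_pow (EE Φ X N) hMpos
      (c₀ := q ^ (n + 1)) (pow_ne_zero _ hq0)
    rw [hTsum]
    have h1 : ∀ c ∈ T, finrank W.K (LinearMap.ker (EE Φ X N - c •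
        (1 : Module.End W.K (W.H (Y163.pw X N))))) =
        ((Finset.univ.filter fun f : Fin (N + 1) → ι => (∏ k, l₀ (f k)) ^ M = (q ^ (n + 1)) ^ M ∧
          (∑ k, h (f k) = 0 ∨ ∑ k, h (f k) = 1)).filter fun f => ∏ k, l₀ (f k) = c).card := by
      intro c hc
      rw [hker N c]
      congr 1
      ext f
      simp only [Finset.mem_filter, Finset.mem_univ, true_and]
      constructor
      · rintro ⟨h1, h2⟩
        exact ⟨⟨by rw [h1]; exact (hT c).1 hc, h2⟩, h1⟩
      · rintro ⟨⟨h1, h2⟩, h3⟩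
        exact ⟨h3, h2⟩
    have h2 := Finset.card_eq_sum_card_fiberwise (f := fun f : Fin (N + 1) → ι => ∏ k, l₀ (f k))
      (s := Finset.univ.filter fun f : Fin (N + 1) → ι =>
        (∏ k, l₀ (f k)) ^ M = (q ^ (n + 1)) ^ M ∧ (∑ k, h (f k) = 0 ∨ ∑ k, h (f k) = 1))
      (t := T) (by
      intro f hf
      have hf' := (Finset.mem_filter.1 (Finset.mem_coe.1 hf)).2.1
      exact Finset.mem_coe.2 ((hT _).2 hf'))
    refine (Finset.sum_congr rfl h1).trans (h2.symm.trans ?_)
    subst hN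
    -- the final bijection
    rw [Finset.card_filter, Finset.card_filter, ← (pairEquiv ι n).sum_comp]
    refine Finset.sum_congr rfl fun f _ => ?_
    refine if_congr ?_ rfl rfl
    rw [hiff, pairEquiv_prod n f l, pairEquiv_sum n f h]
    refine and_congr ?_ Iff.rfl
    have e1 : (QuotientGroup.mk (∏ k, (l (f k).1 * l (f k).2)) :
        W.Kˣ ⧸ CommGroup.torsion W.Kˣ) = ∏ k, ((QuotientGroup.mk (l (f k).1) :
          W.Kˣ ⧸ CommGroup.torsion W.Kˣ) * QuotientGroup.mk (l (f k).2)) :=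
      map_prod (QuotientGroup.mk' (CommGroup.torsion W.Kˣ)) (fun k => l (f k).1 * l (f k).2)
        Finset.univ
    rw [e1]
    rfl

end Pool.Agent.L7h85.PW
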