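import Pool.Agent.L7h85.PW.Fin
import Pool.Agent.L7h85.PW.Tcn2
import Pool.Agent.L7h60.PW.Blkg
import Pool.Agent.Y133.Half.TateSS

/-!
# The exact growth of the numbers of Tate classes: final form
-/

set_option linter.unusedVariables false
set_option linter.unusedSectionVars false

open CategoryTheory AlgebraicGeometry CategoryTheory.Limits Filter Topology

universe u v w

namespace Pool.Agent.L7h85.PW

open Pool.Agent.H914 Pool.Agent.H447 Pool.Agent.W534 VarClass Obj WeilCohomology Module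
open Pool.Agent.Y163 Pool.Agent.L7h85.RL Pool.Agent.R908 Pool.Agent.L7h89.RL
open Pool.Agent.L7h85.GR (eigs Growth)

variable {k : Type u} [Field k] {𝒱 : VarClass k} {ops : CycleOps 𝒱}
  {W : WeilCohomology.{u, v} ops} {X Y Z : 𝒱.Obj} {p : ℕ}

lemma frobAll_eq (Φ : FrobSystem W p) (X : 𝒱.Obj) : frobAll Φ X = frob Φ X 1 := by
  apply LinearMap.ext
  intro v
  change W.map (Φ.Fr X) v = W.map (𝟙 X ≫ Φ.Fr X) v
  rw [Category.id_comp]

/-! ### Semisimple Frobenius endomorphisms -/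

lemma EE_semisimple (Φ : FrobSystem W p) (h : Module.End.IsSemisimple (frobAll Φ X)) (n : ℕ) :
    (EE Φ X n).IsSemisimple := by
  rw [frobAll_eq] at h
  induction n with
  | zero => exact h
  | succ n ih => exact Pool.Agent.Y133.Half.semisimple_ext (X := X) (Y := Y163.pw X n) h ih

lemma tsub_eq_genU (Φ : FrobSystem W p) (h : Module.End.IsSemisimple (frobAll Φ X)) (n j : ℕ) :
    tsub Φ (Y163.sq X n) j = genU Φ (Y163.sq X n) j := by
  obtain ⟨A, B, hA, hB, hAB, hfr⟩ := level_sq Φ X n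
  have hD : (extOp W (EE Φ X n) (EE Φ X n)).IsSemisimple :=
    Pool.Agent.Y133.Half.semisimple_ext (X := Y163.pw X n) (Y := Y163.pw X n)
      (EE_semisimple Φ h n) (EE_semisimple Φ h n)
  refine le_antisymm (tsub_le_genU Φ _ _) ?_
  intro x hx
  obtain ⟨s, hs, hx⟩ := (mem_genU Φ).1 hx
  have h1 := genTate_mono' Φ s A j hx
  refine Submodule.subset_span ⟨hx.2, A * s, Nat.mul_pos hA hs, ?_⟩
  have hss : (frob Φ (Y163.sq X n) (A * s)).IsSemisimple := by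
    rw [frob_mul_eq, hfr]
    exact (hD.pow B).pow s
  have h2 := hss.isFinitelySemisimple.maxGenEigenspace_eq_eigenspace
    ((card Φ (Y163.sq X n) (A * s) : W.K) ^ j)
  have h3 : x ∈ (frob Φ (Y163.sq X n) (A * s)).maxGenEigenspace
    ((card Φ (Y163.sq X n) (A * s) : W.K) ^ j) := h1.1
  rw [h2, Module.End.mem_eigenspace_iff] at h3
  rw [← card_pow]
  exact h3

/-! ### The number of the Tate classes -/

/-- the number of the Tate classes if the Frobenius endomorphism is not semisimple -/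
theorem tate_growth (hENDP : S_ENDP.{v}) (hKERN : S_KERN.{v, v}) (hp : 1 < p)
    (hK : IsAlgClosed W.K) (Φ : FrobSystem W p) (σ : W.K →+* ℂ)
    (hRH : ∀ Z : 𝒱.Obj, RiemannHyp Φ σ Z) (X : 𝒱.Obj) [Nontrivial (W.H X)]
    (hss : ¬ Module.End.IsSemisimple (frobAll Φ X)) :
    ∃ κ : ℝ, 0 < κ ∧ Growth (fun n => finrank W.K (tsub Φ (Y163.sq X n) ((n + 1) * X.dim)))
      (finrank W.K (W.H X) ^ 2) (frobRank Φ X + 1) κ := by
  obtain ⟨ι, hι, l, h, Q, s, hcard, hls, hhs, hrange, hns, hcount⟩ :=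
    tate_count Φ hKERN hp hK σ hRH X
  obtain ⟨i₂, i₃, h2, h3⟩ := hns hss
  obtain ⟨i₁, h1⟩ : (1 : W.Kˣ ⧸ CommGroup.torsion W.Kˣ) ∈
      Set.range (fun i => (QuotientGroup.mk (l i) : W.Kˣ ⧸ CommGroup.torsion W.Kˣ)) := by
    rw [hrange]
    refine ⟨1, ⟨(1 : W.H X), trivial, one_ne_zero, ?_⟩, rfl⟩
    change W.map (Φ.Fr X) (1 : W.H X) = _
    rw [map_one, Units.val_one, one_smul]
  obtain ⟨κ, hκ, hgr⟩ := weighted_growth hENDP
    (fun i => (QuotientGroup.mk (l i) : W.Kˣ ⧸ CommGroup.torsion W.Kˣ)) h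
    (QuotientGroup.mk Q) s (fun i => by
      change (QuotientGroup.mk (l (s i)) : W.Kˣ ⧸ CommGroup.torsion W.Kˣ) = _
      rw [hls]; rfl) hhs h1 (congrArg _ h2) h3 _ (fun n => (hcount n).trans
        (by congr))
  refine ⟨κ, hκ, ?_⟩
  rw [rank_eq (X := X) Φ _ hrange, hcard] at hgr
  exact hgr

/-! ### The ranks of the groups of cycles -/

/-- the upper bound for the ranks -/
theorem upper_of_growth' {z r : ℕ → ℕ} {a ρ : ℕ} {κ c γ : ℝ} (ha : 0 < a) (hz : Growth z a ρ κ)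
    (hc : 0 < c) (h : ∀ n : ℕ, c * ((n : ℝ) + 1) ^ γ * r n ≤ z n) :
    ∃ C : ℝ, ∀ n : ℕ, (r n : ℝ) ≤
      C * (a : ℝ) ^ (n + 1) / ((n + 1 : ℕ) : ℝ) ^ ((ρ : ℝ) / 2 + γ) := by
  obtain ⟨B, hB⟩ := hz.bddAbove_range
  refine ⟨B / c, fun n => ?_⟩
  have h1 : (z n : ℝ) * ((n + 1 : ℕ) : ℝ) ^ ((ρ : ℝ) / 2) / (a : ℝ) ^ (n + 1) ≤ B := hB ⟨n, rfl⟩
  have hn : (0 : ℝ) < ((n + 1 : ℕ) : ℝ) := by positivity
  have hap : (0 : ℝ) < (a : ℝ) ^ (n + 1) := by positivity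
  rw [div_le_iff₀ hap] at h1
  have h2 := h n
  have e1 : ((n + 1 : ℕ) : ℝ) ^ ((ρ : ℝ) / 2 + γ) =
      ((n : ℝ) + 1) ^ γ * ((n + 1 : ℕ) : ℝ) ^ ((ρ : ℝ) / 2) := by
    rw [show ((n : ℝ) + 1) = ((n + 1 : ℕ) : ℝ) by push_cast; ring, ← Real.rpow_add hn]
    congr 1
    ring
  rw [e1, le_div_iff₀ (by positivity), div_mul_eq_mul_div, le_div_iff₀ hc]
  calc (r n : ℝ) * (((n : ℝ) + 1) ^ γ * ((n + 1 : ℕ) : ℝ) ^ ((ρ : ℝ) / 2)) * c =
      (c * ((n : ℝ) + 1) ^ γ * r n) * ((n + 1 : ℕ) : ℝ) ^ ((ρ : ℝ) / 2) := by ring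
    _ ≤ z n * ((n + 1 : ℕ) : ℝ) ^ ((ρ : ℝ) / 2) := by gcongr
    _ ≤ B * (a : ℝ) ^ (n + 1) := h1

/-- the ranks if the Frobenius endomorphism is not semisimple -/
theorem rank_nonsemisimple (hBLKG : S_BLKG.{max (u + 1) v, v}) (hp : 1 < p)
    (hK : IsAlgClosed W.K) (Φ : FrobSystem W p) (σ : W.K →+* ℂ) (hNSU : S_NSU Φ σ)
    (hRH : ∀ Z : 𝒱.Obj, RiemannHyp Φ σ Z) (X : 𝒱.Obj) 
    (hss : ¬ Module.End.IsSemisimple (frobAll Φ X)) :
    ∃ c : ℝ, 0 < c ∧ ∀ n : ℕ, c * ((n : ℝ) + 1) ^ (3 / 2 : ℝ) * mrank W X n ≤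
      finrank W.K (genU Φ (sq X n) ((n + 1) * X.dim)) := by
  classical
  have hpar : AllPar W := fun Z => par_mem_of_RH Φ hp σ (hRH Z)
  have h𝒮 := isGeo_gsys hK hpar
  set 𝒮 := gsys W hK hpar with h𝒮def
  have hPRJ : S_PRJ Φ σ := L7h89.RL.s_PRJ Φ σ
  have hT : 𝒮.IsStable (GT Φ) := L7h73.RL.s_STA Φ σ hPRJ hp hK hRH 𝒮 h𝒮
  have hSPC : S_SPC Φ σ := s_spc Φ σ
  have hdim : ∀ n, (sq X n).dim = 2 * ((n + 1) * X.dim) := by
    intro n
    rw [dim_sq]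
  have hproj : ∀ n, ∃ A : GOb W, A.Z = sq X n ∧ 𝒮.IsSplit (GT Φ) (𝒮.wq (gone W X) n) A
      (gcompl A) ∧ gdim A = finrank W.K (genU Φ (sq X n) ((n + 1) * X.dim)) := by
    intro n
    obtain ⟨π, hπ, hππ, hr, -, -⟩ := hPRJ hp hK hRH (sq X n) _ (hdim n)
    refine ⟨⟨sq X n, π, hπ, hππ⟩, rfl, ?_, ?_⟩
    · rw [wq_gone h𝒮]
      exact hSPC hp hK hRH 𝒮 h𝒮 ⟨sq X n, π, hπ, hππ⟩ _ (hdim n) hr
    · change finrank W.K (LinearMap.range π) = _
      rw [hr]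
  choose O hOZ hs hOd using hproj
  have hgr : ∀ n, 𝒮.dim (gone W X) ^ (2 * (n + 1)) ≤
      𝒮.h (𝒮.pw (gone W X) n) (𝒮.pw (gone W X) n) * (n + 2) ^ (finrank W.K (W.H X) ^ 2) := by
    intro n
    rw [h_pw_gone h𝒮 hpar]
    have h1 := mrank_growth (W := W) (X := X) (hpar X) n
    change gdim (gone W X) ^ (2 * (n + 1)) ≤ _
    rw [gdim_gone, pow_mul]
    exact h1
  obtain ⟨Λ, hΛ, U, g, hdec, a₀, C, hC, hsmall⟩ := hNSU hp hK hRH 𝒮 h𝒮 X hss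
  obtain ⟨c, hc, h⟩ := hBLKG 𝒮 (GT Φ) hT (gone W X) O (fun n => gcompl (O n)) hs Λ U _ g hdec _ hgr
    a₀ C (3 / 2) hC (by norm_num) hsmall
  refine ⟨c, hc, fun n => ?_⟩
  have h1 := h n
  rw [h_pw_gone h𝒮 hpar] at h1
  rw [← hOd]
  exact h1

/-- **The law of the poles**, in terms of the spaces of generalised Tate classes. -/
theorem pole_law'' (hp : 1 < p) (hK : IsAlgClosed W.K) (Φ : FrobSystem W p) (σ : W.K →+* ℂ)
    (hRH : ∀ Z : 𝒱.Obj, RiemannHyp Φ σ Z) (X : 𝒱.Obj) [hX : Nontrivial (W.H X)] :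
    (∀ n, 0 < mrank W X n) ∧ ∃ κ : ℝ, 0 < κ ∧
      Growth (fun n => finrank W.K (genU Φ (sq X n) ((n + 1) * X.dim)))
        (finrank W.K (W.H X) ^ 2) (frobRank Φ X) κ ∧
      ((∃ N : ℕ, 0 < N ∧
        (∀ n, finrank W.K (genU Φ (sq X n) ((n + 1) * X.dim)) ≤ N * mrank W X n) ∧
        Growth (mrank W X) (finrank W.K (W.H X) ^ 2) (frobRank Φ X) (κ / N)) ∨
      ∃ C : ℝ, ∀ n : ℕ, (mrank W X n : ℝ) ≤
        C * ((finrank W.K (W.H X) ^ 2 : ℕ) : ℝ) ^ (n + 1) /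
          ((n + 1 : ℕ) : ℝ) ^ (((frobRank Φ X : ℝ) + 1) / 2)) := by
  have hX0 : 0 < finrank W.K (W.H X) := finrank_pos
  obtain ⟨⟨κ, hκ, hz⟩, hdich⟩ := pole_core hp hK Φ σ hRH hX0 L7h60.PW.s_BLK' L7h35.PW.s_FIN2
  have hpar : par (W.isInternal X) ∈ KOp W X X 0 := par_mem_of_RH Φ hp σ (hRH X)
  have hpos : ∀ n, 0 < mrank W X n := by
    intro n
    have h1 := mrank_growth hpar n
    apply Nat.pos_of_ne_zero
    intro h0
    rw [h0, zero_mul] at h1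
    have h2 : 0 < (finrank W.K (W.H X) ^ 2) ^ (n + 1) := by positivity
    omega
  have hle : ∀ n, mrank W X n ≤ finrank W.K (genU Φ (sq X n) ((n + 1) * X.dim)) := fun n =>
    (kRank_le _ _).trans (Submodule.finrank_mono
      ((span_le_tsub Φ _ _).trans (tsub_le_genU Φ _ _)))
  refine ⟨hpos, κ, hκ, hz, ?_⟩
  rcases hdich with ⟨N, hN⟩ | ⟨c, hc, h⟩
  · left
    rcases Y163.index_law hpar hX0 (fun n => genU Φ (sq X n) ((n + 1) * X.dim))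
      ((genFam Φ).stable_sq X) with ⟨d, hd1, hd2⟩ | h
    · have hd0 : 0 < d := by
        apply Nat.pos_of_ne_zero
        intro h0
        have h1 := hd1 0
        rw [h0, zero_mul] at h1
        have h2 := hpos 0
        have h3 := hle 0
        omega
      exact ⟨d, hd0, hd1, growth_div hd0 hz hpos hd2 fun n => (hpos n).trans_le (hle n)⟩
    · exfalso
      obtain ⟨n, hn⟩ := (h.eventually_gt_atTop (N : ℝ)).exists
      have h1 := hN n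
      have h2 : (0 : ℝ) < mrank W X n := by exact_mod_cast hpos n
      rw [lt_div_iff₀ h2] at hn
      have h3 : ((finrank W.K (genU Φ (sq X n) ((n + 1) * X.dim)) : ℕ) : ℝ) ≤
          N * mrank W X n := by exact_mod_cast h1
      linarith
  · right
    exact upper_of_growth (by positivity) hz hc h

/-- **The law of the Tate classes.** -/
theorem tate_law (hENDP : S_ENDP.{v}) (hKERN : S_KERN.{v, v}) (hBLKG : S_BLKG.{max (u + 1) v, v})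
    (hp : 1 < p) (hK : IsAlgClosed W.K) (Φ : FrobSystem W p) (σ : W.K →+* ℂ)
    (hNSU : S_NSU Φ σ) (hRH : ∀ Z : 𝒱.Obj, RiemannHyp Φ σ Z) (X : 𝒱.Obj)
    [hX : Nontrivial (W.H X)] :
    ∃ (t z r : ℕ → ℕ) (κ : ℝ),
      (∀ n, t n = finrank W.K
        (Submodule.span W.K {c : W.H (sq X n) | IsTate Φ (sq X n) ((n + 1) * X.dim) c})) ∧
      (∀ n, PoleOrderIs Φ σ (sq X n) ((n + 1) * X.dim) (z n)) ∧
      (∀ n, r n = numRank ops (sq X n) ((n + 1) * X.dim)) ∧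
      (∀ n, 0 < r n ∧ r n ≤ t n ∧ t n ≤ z n) ∧
      0 < κ ∧ Growth z (finrank W.K (W.H X) ^ 2) (frobRank Φ X) κ ∧
      (Module.End.IsSemisimple (frobAll Φ X) → t = z ∧
        ((∃ N : ℕ, 0 < N ∧ (∀ n, z n ≤ N * r n) ∧
          Growth r (finrank W.K (W.H X) ^ 2) (frobRank Φ X) (κ / N)) ∨
        ∃ C : ℝ, ∀ n : ℕ, (r n : ℝ) ≤ C * ((finrank W.K (W.H X) ^ 2 : ℕ) : ℝ) ^ (n + 1) /
          ((n + 1 : ℕ) : ℝ) ^ (((frobRank Φ X : ℝ) + 1) / 2))) ∧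
      (¬ Module.End.IsSemisimple (frobAll Φ X) →
        (∃ κ' : ℝ, 0 < κ' ∧ Growth t (finrank W.K (W.H X) ^ 2) (frobRank Φ X + 1) κ') ∧
        ∃ C : ℝ, ∀ n : ℕ, (r n : ℝ) ≤ C * ((finrank W.K (W.H X) ^ 2 : ℕ) : ℝ) ^ (n + 1) /
          ((n + 1 : ℕ) : ℝ) ^ (((frobRank Φ X : ℝ) + 3) / 2)) := by
  have hX0 : 0 < finrank W.K (W.H X) := finrank_pos
  obtain ⟨hpos, κ, hκ, hgr, hdich⟩ := pole_law'' hp hK Φ σ hRH X
  refine ⟨fun n => finrank W.K (tsub Φ (Y163.sq X n) ((n + 1) * X.dim)),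
    fun n => finrank W.K (genU Φ (sq X n) ((n + 1) * X.dim)), mrank W X, κ, fun n => rfl,
    fun n => poleOrderIs hp (hRH _) (by rw [dim_sq]; omega), fun n => (numRank_sq X n).symm,
    fun n => ⟨hpos n, ?_, ?_⟩, hκ, hgr, ?_, ?_⟩
  · exact (kRank_le _ _).trans (Submodule.finrank_mono (span_le_tsub Φ _ _))
  · exact Submodule.finrank_mono (tsub_le_genU Φ _ _)
  · intro hss
    refine ⟨?_, hdich⟩
    funext n
    exact congrArg (fun U : Submodule W.K (W.H (Y163.sq X n)) => finrank W.K U)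
      (tsub_eq_genU Φ hss n _)
  · intro hss
    refine ⟨tate_growth hENDP hKERN hp hK Φ σ hRH X hss, ?_⟩
    obtain ⟨c, hc, h⟩ := rank_nonsemisimple hBLKG hp hK Φ σ hNSU hRH X hss
    obtain ⟨C, hC⟩ := upper_of_growth' (γ := 3 / 2) (by positivity) hgr hc h
    refine ⟨C, fun n => ?_⟩
    have h1 := hC n
    rw [show ((frobRank Φ X : ℝ) + 3) / 2 = (frobRank Φ X : ℝ) / 2 + 3 / 2 by ring]
    exact h1

end Pool.Agent.L7h85.PW
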