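import Pool.Agent.L7h85.PW.Stm
import Pool.Agent.L7h85.GR.Gen
import Pool.Agent.L7h85.GR.Sub
import Pool.Agent.L7h85.GR.Defs

/-!
# The asymptotics of the numbers of pairs of words of the same degree
-/

set_option autoImplicit false

namespace Pool.Agent.L7h85.PW

open Finset Filter Topology Pool.Agent.L7h85.GR

universe u v

theorem sum_sig {Λ : Type*} [Fintype Λ] (d : Λ → ℕ) (n : ℕ) (F : (Fin n → Λ) → ℕ) :
    ∑ f : Fin n → (Σ a, Fin (d a)), F (fun k => (f k).1) =
      ∑ x : Fin n → Λ, (∏ i, d (x i)) * F x := by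
  induction n with
  | zero =>
    simp only [Finset.univ_unique, Finset.sum_singleton, Finset.univ_eq_empty, Finset.prod_empty,
      one_mul]
    congr 1
    exact Subsingleton.elim _ _
  | succ n ih =>
    rw [← (Fin.consEquiv (fun _ => Σ a, Fin (d a))).sum_comp,
      ← (Fin.consEquiv (fun _ => Λ)).sum_comp, Fintype.sum_prod_type, Fintype.sum_prod_type,
      Fintype.sum_sigma]
    refine Finset.sum_congr rfl fun a _ => ?_
    have h1 : ∀ (s : Fin (d a)) (f : Fin n → Σ a, Fin (d a)),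
        (fun k => ((Fin.consEquiv (fun _ => Σ a, Fin (d a))) ((⟨a, s⟩ : Σ a, Fin (d a)), f) k).1) =
          Fin.cons a (fun k => (f k).1) := by
      intro s f
      funext k
      refine Fin.cases ?_ (fun k => ?_) k
      · rfl
      · rfl
    simp only [h1]
    rw [Finset.sum_const, Finset.card_univ, Fintype.card_fin, smul_eq_mul]
    rw [ih (fun x => F (Fin.cons a x)), Finset.mul_sum]
    refine Finset.sum_congr rfl fun x _ => ?_
    rw [← mul_assoc]
    congr 1
    rw [Fin.prod_univ_succ]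
    rfl

/-- the number of pairs of words of the same degree as a number of closed walks -/
theorem cw_pairs {Λ : Type*} [Fintype Λ] (d : Λ → ℕ) {Γ : Type*} [CommGroup Γ] [DecidableEq Γ]
    (g : Λ → Γ) (n : ℕ) :
    cw (fun i : (Σ a, Fin (d a)) × (Σ a, Fin (d a)) =>
      Additive.ofMul (g i.1.1) - Additive.ofMul (g i.2.1)) n =
      ∑ x : Fin n → Λ, ∑ y : Fin n → Λ,
        if ∏ i, g (x i) = ∏ i, g (y i) then (∏ i, d (x i)) * ∏ i, d (y i) else 0 := by
  classical
  rw [cw, Nat.card_eq_fintype_card, Fintype.card_subtype, Finset.card_filter]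
  have h1 : ∀ f : Fin n → (Σ a, Fin (d a)) × (Σ a, Fin (d a)),
      (∑ k, (Additive.ofMul (g (f k).1.1) - Additive.ofMul (g (f k).2.1)) = 0) ↔
        ∏ i, g (f i).1.1 = ∏ i, g (f i).2.1 := by
    intro f
    rw [Finset.sum_sub_distrib, sub_eq_zero, ← ofMul_prod, ← ofMul_prod]
    exact Additive.ofMul.injective.eq_iff
  simp only [h1]
  rw [← (Equiv.arrowProdEquivProdArrow (Fin n) (fun _ => Σ a, Fin (d a))
    (fun _ => Σ a, Fin (d a))).symm.sum_comp, Fintype.sum_prod_type]
  have h2 := sum_sig d n (fun x => ∑ y : Fin n → Λ, (∏ i, d (y i)) *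
    if ∏ i, g (x i) = ∏ i, g (y i) then 1 else 0)
  refine Eq.trans (Finset.sum_congr rfl fun f1 _ => ?_) (h2.trans ?_)
  · exact sum_sig d n (fun y => if ∏ i, g (f1 i).1 = ∏ i, g (y i) then 1 else 0)
  · refine Finset.sum_congr rfl fun x _ => ?_
    rw [Finset.mul_sum]
    refine Finset.sum_congr rfl fun y _ => ?_
    split_ifs
    · rw [mul_one]
    · simp

/-- **The asymptotics.** -/
theorem pairs_growth {Λ : Type*} [Fintype Λ] (d : Λ → ℕ) (hd : ∀ a, 0 < d a) {Γ : Type*}
    [CommGroup Γ] [DecidableEq Γ] (g : Λ → Γ) {a₁ : Λ} (h1 : g a₁ = 1) (z : ℕ → ℕ)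
    (hz : ∀ n, z n = ∑ x : Fin (n + 1) → Λ, ∑ y : Fin (n + 1) → Λ,
      if ∏ i, g (x i) = ∏ i, g (y i) then (∏ i, d (x i)) * ∏ i, d (y i) else 0) :
    ∃ κ : ℝ, 0 < κ ∧ Growth z ((∑ a, d a) ^ 2)
      (Module.finrank ℤ (AddSubgroup.closure (Set.range fun a => Additive.ofMul (g a)))) κ := by
  set w : (Σ a, Fin (d a)) × (Σ a, Fin (d a)) → Additive Γ := fun i =>
      Additive.ofMul (g i.1.1) - Additive.ofMul (g i.2.1) with hw
  let i₁ : Σ a, Fin (d a) := ⟨a₁, ⟨0, hd a₁⟩⟩
  obtain ⟨κ, hκ, h⟩ := lcl' w (τ := Prod.swap) Prod.swap_bijective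
    (fun i => by rw [hw]; simp) (i₀ := (i₁, i₁)) (by rw [hw]; simp)
  have hr : AddSubgroup.closure (Set.range w) =
      AddSubgroup.closure (Set.range fun a => Additive.ofMul (g a)) := by
    apply le_antisymm
    · rw [AddSubgroup.closure_le]
      rintro _ ⟨i, rfl⟩
      exact AddSubgroup.sub_mem _ (AddSubgroup.subset_closure ⟨_, rfl⟩)
        (AddSubgroup.subset_closure ⟨_, rfl⟩)
    · rw [AddSubgroup.closure_le]
      rintro _ ⟨a, rfl⟩
      refine AddSubgroup.subset_closure ⟨(⟨a, ⟨0, hd a⟩⟩, i₁), ?_⟩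
      rw [hw]
      change Additive.ofMul (g a) - Additive.ofMul (g a₁) = _
      rw [h1]
      simp
  refine ⟨κ, hκ, ?_⟩
  rw [Growth, ← hr]
  refine h.congr fun n => ?_
  rw [cw_pairs, ← hz]
  congr 2
  rw [Fintype.card_prod, Fintype.card_sigma]
  simp only [Fintype.card_fin]
  push_cast
  ring

/-- the rank of a group of units and of its image modulo torsion -/
theorem finrank_closure_units {K : Type*} [Field K] (S : Set Kˣ) :
    Module.finrank ℤ (Additive (Subgroup.closure S)) =
      Module.finrank ℤ (AddSubgroup.closure ((fun x : Kˣ =>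
        Additive.ofMul (QuotientGroup.mk x : Kˣ ⧸ CommGroup.torsion Kˣ)) '' S)) := by
  let f : Additive (Subgroup.closure S) →+ Additive (Kˣ ⧸ CommGroup.torsion Kˣ) :=
    MonoidHom.toAdditive ((QuotientGroup.mk' (CommGroup.torsion Kˣ)).comp
      (Subgroup.closure S).subtype)
  have hf : ∀ x, f x = 0 → ∃ n : ℕ, 0 < n ∧ n • x = 0 := by
    intro x hx
    have h1 : ((Additive.toMul x : Subgroup.closure S) : Kˣ) ∈ CommGroup.torsion Kˣ := by
      rw [← QuotientGroup.eq_one_iff]
      exact hx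
    obtain ⟨n, hn, h2⟩ := isOfFinOrder_iff_pow_eq_one.1 h1
    refine ⟨n, hn, ?_⟩
    apply Additive.toMul.injective
    exact Subtype.ext h2
  rw [← finrank_range f hf]
  have hrange : f.range = AddSubgroup.closure ((fun x : Kˣ =>
        Additive.ofMul (QuotientGroup.mk x : Kˣ ⧸ CommGroup.torsion Kˣ)) '' S) := by
    apply le_antisymm
    · rintro _ ⟨x, rfl⟩
      have hx0 : ∀ x : Kˣ, (hx : x ∈ Subgroup.closure S) →
          Additive.ofMul (QuotientGroup.mk x : Kˣ ⧸ CommGroup.torsion Kˣ) ∈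
            AddSubgroup.closure ((fun x : Kˣ =>
              Additive.ofMul (QuotientGroup.mk x : Kˣ ⧸ CommGroup.torsion Kˣ)) '' S) := by
        intro x hx
        induction hx using Subgroup.closure_induction with
        | mem x hx => exact AddSubgroup.subset_closure ⟨x, hx, rfl⟩
        | one => exact AddSubgroup.zero_mem _
        | mul x y _ _ hx hy =>
          rw [QuotientGroup.mk_mul, ofMul_mul]
          exact AddSubgroup.add_mem _ hx hy
        | inv x _ hx =>
          rw [QuotientGroup.mk_inv, ofMul_inv]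
          exact AddSubgroup.neg_mem _ hx
      exact hx0 _ (Additive.toMul x).2
    · rw [AddSubgroup.closure_le]
      rintro _ ⟨x, hx, rfl⟩
      exact ⟨Additive.ofMul ⟨x, Subgroup.subset_closure hx⟩, rfl⟩
  rw [hrange]

end Pool.Agent.L7h85.PW
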