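import Pool.Agent.L7h85.PW.NoLog
import Pool.Agent.L7h85.PW.Zas
import Pool.Agent.L7h85.PW.Grx
import Pool.Agent.L7h85.PW.Defs
import Pool.Agent.L7h85.RL.Fin
import Pool.Agent.L7h85.RL.Spc
import Pool.Agent.L7h85.RL.Asm3
import Pool.Agent.L7h60.PW.Words

/-!
# The exact growth of the orders of the poles
-/

set_option linter.unusedVariables false
set_option linter.unusedSectionVars false

open CategoryTheory AlgebraicGeometry CategoryTheory.Limits Filter Topology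

universe u v w

namespace Pool.Agent.L7h85.PW

open Pool.Agent.H914 Pool.Agent.H447 Pool.Agent.W534 VarClass Obj WeilCohomology Module
open Pool.Agent.Y163 Pool.Agent.L7h85.RL Pool.Agent.R908
open Pool.Agent.L7h85.GR (eigs Growth)

variable {k : Type u} [Field k] {𝒱 : VarClass k} {ops : CycleOps 𝒱}
  {W : WeilCohomology.{u, v} ops} {X Y Z : 𝒱.Obj} {p : ℕ}

/-- the rank of the group of the classes of the eigenvalues -/
theorem rank_eq (Φ : FrobSystem W p) {Λ : Type} (g : Λ → (W.Kˣ ⧸ CommGroup.torsion W.Kˣ))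
    (hg : Set.range g = {c | ∃ x : W.Kˣ, (x : W.K) ∈ eigs (frobAll Φ X) ⊤ ∧
      c = QuotientGroup.mk x}) :
    finrank ℤ (AddSubgroup.closure (Set.range fun a => Additive.ofMul (g a))) = frobRank Φ X := by
  rw [frobRank, unitsRank, finrank_closure_units]
  have h1 : (Set.range fun a => Additive.ofMul (g a)) =
      (fun x : W.Kˣ => Additive.ofMul (QuotientGroup.mk x : W.Kˣ ⧸ CommGroup.torsion W.Kˣ)) ''
        {x : W.Kˣ | (x : W.K) ∈ eigs (frobAll Φ X) ⊤} := by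
    have h2 : (Set.range fun a => Additive.ofMul (g a)) = Additive.ofMul '' Set.range g := by
      ext c
      constructor
      · rintro ⟨a, rfl⟩; exact ⟨_, ⟨a, rfl⟩, rfl⟩
      · rintro ⟨_, ⟨a, rfl⟩, rfl⟩; exact ⟨a, rfl⟩
    rw [h2, hg]
    ext c
    constructor
    · rintro ⟨_, ⟨x, hx, rfl⟩, rfl⟩; exact ⟨x, hx, rfl⟩
    · rintro ⟨x, hx, rfl⟩; exact ⟨_, ⟨x, hx, rfl⟩, rfl⟩
  rw [h1]

/-- **The growth of the orders of the poles, and the root law without logarithm**, in terms of the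
spaces of generalised Tate classes. -/
theorem pole_core (hp : 1 < p) (hK : IsAlgClosed W.K) (Φ : FrobSystem W p) (σ : W.K →+* ℂ)
    (hRH : ∀ Z : 𝒱.Obj, RiemannHyp Φ σ Z) (hX : 0 < finrank W.K (W.H X))
    (hBLK : S_BLK'.{max (u + 1) v, v}) (hFIN : S_FIN2.{max (u + 1) v, v}) :
    (∃ κ : ℝ, 0 < κ ∧ Growth (fun n => finrank W.K (genU Φ (sq X n) ((n + 1) * X.dim)))
      (finrank W.K (W.H X) ^ 2) (frobRank Φ X) κ) ∧
    ((∃ N : ℕ, ∀ n,
      finrank W.K (genU Φ (sq X n) ((n + 1) * X.dim)) ≤ N * mrank W X n) ∨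
    ∃ c : ℝ, 0 < c ∧ ∀ n : ℕ, c * √((n : ℝ) + 1) * mrank W X n ≤
      finrank W.K (genU Φ (sq X n) ((n + 1) * X.dim))) := by
  classical
  have hpar : AllPar W := fun Z => par_mem_of_RH Φ hp σ (hRH Z)
  have h𝒮 := isGeo_gsys hK hpar
  set 𝒮 := gsys W hK hpar with h𝒮def
  have hPRJ : S_PRJ Φ σ := L7h89.RL.s_PRJ Φ σ
  have hT : 𝒮.IsStable (GT Φ) := L7h73.RL.s_STA Φ σ hPRJ hp hK hRH 𝒮 h𝒮
  have hSPC : S_SPC Φ σ := s_spc Φ σ
  have hDIM : S_DIM.{max (u + 1) v, v} := L7h60.PW.s_DIM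
  have hdim : ∀ n, (sq X n).dim = 2 * ((n + 1) * X.dim) := by
    intro n
    rw [dim_sq]
  have hproj : ∀ n, ∃ A : GOb W, A.Z = sq X n ∧ 𝒮.IsSplit (GT Φ) (𝒮.wq (gone W X) n) A
      (gcompl A) ∧ gdim A = finrank W.K (genU Φ (sq X n) ((n + 1) * X.dim)) := by
    intro n
    obtain ⟨π, hπ, hππ, hr, -, -⟩ := hPRJ hp hK hRH (sq X n) _ (hdim n)
    refine ⟨⟨sq X n, π, hπ, hππ⟩, rfl, ?_, ?_⟩
    · rw [wq_gone h𝒮]
      exact hSPC hp hK hRH 𝒮 h𝒮 ⟨sq X n, π, hπ, hππ⟩ _ (hdim n) hr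
    · change finrank W.K (LinearMap.range π) = _
      rw [hr]
  choose O hOZ hs hOd using hproj
  have hV : 0 < 𝒮.dim (gone W X) := by
    change 0 < gdim (gone W X)
    rw [gdim_gone]; exact hX
  have hgr : ∀ n, 𝒮.dim (gone W X) ^ (2 * (n + 1)) ≤
      𝒮.h (𝒮.pw (gone W X) n) (𝒮.pw (gone W X) n) * (n + 2) ^ (finrank W.K (W.H X) ^ 2) := by
    intro n
    rw [h_pw_gone h𝒮 hpar]
    have h1 := mrank_growth (W := W) (X := X) (hpar X) n
    change gdim (gone W X) ^ (2 * (n + 1)) ≤ _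
    rw [gdim_gone, pow_mul]
    exact h1
  obtain ⟨Λ', _, U', g', hg'⟩ := L7h97.RL.s_GRD Φ σ hp hK hRH 𝒮 h𝒮 X
  have hG : ∀ κ, ∃ (Λ : Type) (_ : Fintype Λ) (U : Λ → GOb W)
      (g : Λ → (W.Kˣ ⧸ CommGroup.torsion W.Kˣ)),
      IsDec 𝒮 (GT Φ) (𝒮.pw (gone W X) κ) U g ∧ Set.range g = {c | ∃ x : W.Kˣ,
        (x : W.K) ∈ eigs (frobAll Φ (Y163.pw X κ)) ⊤ ∧ c = QuotientGroup.mk x} := by
    intro κ
    rw [pw_gone h𝒮]
    exact s_GRX Φ σ hp hK hRH 𝒮 h𝒮 (Y163.pw X κ)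
  choose Λ hΛ U g hdec hrange using hG
  refine ⟨?_, ?_⟩
  · -- the asymptotics
    have hnt : Nontrivial (W.H X) := Module.finrank_pos_iff.1 hX
    have hr0 : Set.range (g 0) = {c | ∃ x : W.Kˣ, (x : W.K) ∈ eigs (frobAll Φ X) ⊤ ∧
      c = QuotientGroup.mk x} := hrange 0
    obtain ⟨a₁, ha₁⟩ : (1 : W.Kˣ ⧸ CommGroup.torsion W.Kˣ) ∈ Set.range (g 0) := by
      rw [hr0]
      refine ⟨1, ⟨(1 : W.H X), trivial, one_ne_zero, ?_⟩, rfl⟩
      change W.map (Φ.Fr X) (1 : W.H X) = _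
      rw [map_one, Units.val_one, one_smul]
    have hd0 : IsDec 𝒮 (GT Φ) (gone W X) (U 0) (g 0) := hdec 0
    obtain ⟨κ, hκ, h⟩ := pairs_growth (fun a => 𝒮.dim (U 0 a)) hd0.pos (g 0) ha₁
      (fun n => finrank W.K (genU Φ (sq X n) ((n + 1) * X.dim))) (fun n => by
        rw [← hOd]
        change 𝒮.dim (O n) = _
        rw [hDIM 𝒮 (GT Φ) hT (gone W X) (Λ 0) (U 0) _ (g 0) hd0 n _ _ (hs n)]
        refine Finset.sum_congr rfl fun x _ => Finset.sum_congr rfl fun y _ => ?_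
        by_cases h : ∏ i, g 0 (x i) = ∏ i, g 0 (y i)
        · rw [if_pos h, if_pos h]
        · rw [if_neg h, if_neg h])
    refine ⟨κ, hκ, ?_⟩
    rw [rank_eq (X := X) Φ (g 0) hr0, ← hd0.dim] at h
    have h1 : 𝒮.dim (gone W X) = finrank W.K (W.H X) := gdim_gone X
    rw [h1] at h
    exact h
  · rcases s_NOLOG hDIM hBLK hFIN 𝒮 (GT Φ) hT (gone W X) O (fun n => gcompl (O n)) hV hs Λ' U'
      _ g' hg' _ hgr Λ U _ g hdec with ⟨N, hN⟩ | ⟨c, hc, h⟩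
    · left
      refine ⟨N, fun n => ?_⟩
      have h1 := hN n
      rw [h_pw_gone h𝒮 hpar] at h1
      rw [← hOd]
      exact h1
    · right
      refine ⟨c, hc, fun n => ?_⟩
      have h1 := h n
      rw [h_pw_gone h𝒮 hpar] at h1
      rw [← hOd]
      exact h1

end Pool.Agent.L7h85.PW
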