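import Pool.Agent.L7h85.PW.Fin3
import Pool.Agent.L7h89.SS.DDefs

/-!
# The law of the Jordan blocks
-/

set_option linter.unusedVariables false
set_option linter.unusedSectionVars false

open CategoryTheory AlgebraicGeometry CategoryTheory.Limits Filter Topology

universe u v w

namespace Pool.Agent.L7h85.PW

open Pool.Agent.H914 Pool.Agent.H447 Pool.Agent.W534 VarClass Obj WeilCohomology Module
open Pool.Agent.Y163 Pool.Agent.L7h85.RL Pool.Agent.R908 Pool.Agent.L7h89.RL Pool.Agent.L7h89.SS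
open Pool.Agent.L7h85.GR (eigs Growth)

section lin

variable {K V : Type*} [Field K] [CharZero K] [AddCommGroup V] [Module K V]

lemma pow_jordan (T : Module.End K V) {c : K} {w y : V} (hy : T y = c • y)
    (hw : T w = c • w + y) (m : ℕ) :
    (T ^ (m + 1)) w = c ^ (m + 1) • w + (((m + 1 : ℕ) : K) * c ^ m) • y := by
  induction m with
  | zero => simp [hw]
  | succ m ih =>
    rw [pow_succ', Module.End.mul_apply, ih, map_add, map_smul, map_smul, hw, hy, smul_add,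
      smul_smul, smul_smul, add_assoc, ← add_smul]
    congr 1
    · rw [pow_succ c (m + 1)]
    · congr 1
      push_cast
      ring

lemma ker_of_pow (T : Module.End K V) {c : K} (hc : c ≠ 0) {A : ℕ} (hA : 0 < A) (N : ℕ) {x : V}
    (h1 : ((T - c • (1 : Module.End K V)) ^ (N + 1)) x = 0) (h2 : (T ^ A) x = c ^ A • x) :
    T x = c • x := by
  induction N with
  | zero =>
    rw [zero_add, pow_one, LinearMap.sub_apply, LinearMap.smul_apply, Module.End.one_apply,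
      sub_eq_zero] at h1
    exact h1
  | succ N ih =>
    apply ih
    set S := T - c • (1 : Module.End K V) with hS
    have hTS : T = S + c • 1 := by rw [hS]; abel
    have hcomm : Commute (T ^ A) (S ^ N) := by
      apply Commute.pow_pow
      rw [hS]
      exact (Commute.refl T).sub_right ((Commute.one_right T).smul_right c)
    set w := (S ^ N) x with hw
    have hy : T (S w) = c • S w := by
      have h3 : S (S w) = 0 := by
        rw [hw, ← Module.End.mul_apply S, ← Module.End.mul_apply, mul_assoc, ← pow_succ' S N,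
          ← pow_succ']
        exact h1
      rw [hS, LinearMap.sub_apply, LinearMap.smul_apply, Module.End.one_apply, sub_eq_zero,
        ← hS] at h3
      exact h3
    have hw' : T w = c • w + S w := by
      rw [hS, LinearMap.sub_apply, LinearMap.smul_apply, Module.End.one_apply]; abel
    obtain ⟨m, rfl⟩ : ∃ m, A = m + 1 := ⟨A - 1, by omega⟩
    have h4 : (T ^ (m + 1)) w = c ^ (m + 1) • w := by
      rw [hw, ← Module.End.mul_apply, hcomm.eq, Module.End.mul_apply, h2, map_smul]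
    have h5 := pow_jordan T hy hw' m
    rw [h4, left_eq_add, smul_eq_zero] at h5
    have h6 : S w = 0 := by
      rcases h5 with h5 | h5
      · exfalso
        exact mul_ne_zero (Nat.cast_ne_zero.2 (Nat.succ_ne_zero m)) (pow_ne_zero _ hc) h5
      · exact h5
    rw [pow_succ', Module.End.mul_apply]
    exact h6

end lin

variable {k : Type u} [Field k] {𝒱 : VarClass k} {ops : CycleOps 𝒱}
  {W : WeilCohomology.{u, v} ops} {X Y Z : 𝒱.Obj} {p : ℕ}

lemma semiAt_of_semisimple (Φ : FrobSystem W p) (h : Module.End.IsSemisimple (frobAll Φ X))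
    (m s j : ℕ) : SemiAt Φ (Y163.pw X m) s j := by
  obtain ⟨A, B, hA, hB, hAB, hfr⟩ := level_pw Φ X m
  intro x hx
  have h1 := genTate_mono' Φ s A j hx
  have hss : (frob Φ (Y163.pw X m) (A * s)).IsSemisimple := by
    rw [frob_mul_eq, hfr]
    exact ((EE_semisimple Φ h m).pow B).pow s
  have h2 := hss.isFinitelySemisimple.maxGenEigenspace_eq_eigenspace
    ((card Φ (Y163.pw X m) (A * s) : W.K) ^ j)
  have h3 : x ∈ (frob Φ (Y163.pw X m) (A * s)).maxGenEigenspace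
    ((card Φ (Y163.pw X m) (A * s) : W.K) ^ j) := h1.1
  rw [h2, Module.End.mem_eigenspace_iff, mul_comm, frob_mul_eq] at h3
  have h4 : (card Φ (Y163.pw X m) (s * A) : W.K) ^ j =
      ((card Φ (Y163.pw X m) s : W.K) ^ j) ^ A := by
    rw [card_pow, card_pow, ← pow_mul]
    congr 1
    ring
  rw [h4] at h3
  obtain ⟨⟨n, hn⟩, hxg⟩ := (mem_genTate Φ).1 hx
  have h5 := ker_of_pow (frob Φ (Y163.pw X m) s) (pow_ne_zero j (card_ne Φ s)) hA n
    (by rw [pow_succ', Module.End.mul_apply, hn, map_zero]) h3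
  refine ⟨?_, hx.2⟩
  refine LinearMap.mem_ker.2 ?_
  rw [LinearMap.sub_apply, LinearMap.smul_apply, LinearMap.id_apply, sub_eq_zero]
  exact h5

/-- If Frobenius is not semisimple on `H(X)` then the eigenvalue `q ^ d` is not semisimple on
`H^(2 d)(X × X)`. -/
lemma exists_not_semiAt (hp : 1 < p) (hK : IsAlgClosed W.K) (Φ : FrobSystem W p) (σ : W.K →+* ℂ)
    (hRH : ∀ Z : 𝒱.Obj, RiemannHyp Φ σ Z) (X : 𝒱.Obj)
    (h : ¬ Module.End.IsSemisimple (frobAll Φ X)) :
    ∃ s, 0 < s ∧ ¬ SemiAt Φ (X.prod X) s X.dim := by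
  have h1 := L7h73.RL.s_NSX Φ σ hp hK hRH X h
  obtain ⟨x, hx, hx'⟩ := SetLike.exists_of_lt h1
  obtain ⟨s, hs, hx⟩ := (mem_genU Φ).1 hx
  refine ⟨s, hs, fun hS => hx' ?_⟩
  have h2 := hS hx
  have h3 := LinearMap.mem_ker.1 h2.1
  rw [LinearMap.sub_apply, LinearMap.smul_apply, LinearMap.id_apply, sub_eq_zero] at h3
  refine Submodule.subset_span ⟨hx.2, s, hs, ?_⟩
  rw [← card_pow]
  exact h3

/-- the quotient of two sequences with growths of consecutive ranks -/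
theorem growth_ratio {z t : ℕ → ℕ} {a ρ : ℕ} {κ κ' : ℝ} (ha : 0 < a) (hκ : 0 < κ)
    (hz : Growth z a ρ κ) (ht : Growth t a (ρ + 1) κ') :
    Tendsto (fun n : ℕ => √((n : ℝ) + 1) * t n / z n) atTop (𝓝 (κ' / κ)) := by
  refine (ht.div hz hκ.ne').congr fun n => ?_
  have hn : (0 : ℝ) < ((n + 1 : ℕ) : ℝ) := by positivity
  have hap : (0 : ℝ) < (a : ℝ) ^ (n + 1) := by positivity
  have e1 : ((n + 1 : ℕ) : ℝ) ^ ((((ρ + 1 : ℕ) : ℕ) : ℝ) / 2) =
      √((n : ℝ) + 1) * ((n + 1 : ℕ) : ℝ) ^ ((ρ : ℝ) / 2) := by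
    rw [Real.sqrt_eq_rpow, show ((n : ℝ) + 1) = ((n + 1 : ℕ) : ℝ) by push_cast; ring,
      ← Real.rpow_add hn]
    congr 1
    push_cast
    ring
  rw [Pi.div_apply, e1]
  have h2 : ((n + 1 : ℕ) : ℝ) ^ ((ρ : ℝ) / 2) ≠ 0 := (Real.rpow_pos_of_pos hn _).ne'
  by_cases hz0 : (z n : ℝ) = 0
  · rw [hz0]; simp
  field_simp

/-- **The law of the Jordan blocks.** -/
theorem jordan_law (hENDP : S_ENDP.{v}) (hKERN : S_KERN.{v, v}) (hBLKG : S_BLKG.{max (u + 1) v, v})
    (hp : 1 < p) (hK : IsAlgClosed W.K) (Φ : FrobSystem W p) (σ : W.K →+* ℂ)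
    (hNSU : S_NSU Φ σ) (hRH : ∀ Z : 𝒱.Obj, RiemannHyp Φ σ Z) (X : 𝒱.Obj)
    [hX : Nontrivial (W.H X)] :
    ∃ t z r : ℕ → ℕ,
      (∀ n, t n = finrank W.K
        (Submodule.span W.K {c : W.H (sq X n) | IsTate Φ (sq X n) ((n + 1) * X.dim) c})) ∧
      (∀ n, PoleOrderIs Φ σ (sq X n) ((n + 1) * X.dim) (z n)) ∧
      (∀ n, r n = numRank ops (sq X n) ((n + 1) * X.dim)) ∧
      (∀ n, 0 < r n ∧ r n ≤ t n ∧ t n ≤ z n) ∧
      (((∀ m s j, SemiAt Φ (pw X m) s j) ∧ ∀ n, t n = z n) ∨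
      ((∃ s, 0 < s ∧ ¬ SemiAt Φ (X.prod X) s X.dim) ∧
        (∃ l : ℝ, 0 < l ∧ Tendsto (fun n : ℕ => √((n : ℝ) + 1) * t n / z n) atTop (𝓝 l)) ∧
        ∃ c : ℝ, 0 < c ∧ ∀ n : ℕ, c * ((n : ℝ) + 1) ^ (3 / 2 : ℝ) * r n ≤ z n ∧
          c * ((n : ℝ) + 1) * r n ≤ t n)) := by
  have hX0 : 0 < finrank W.K (W.H X) := finrank_pos
  obtain ⟨hpos, κ, hκ, hgr, hdich⟩ := pole_law'' hp hK Φ σ hRH X
  have hrt : ∀ n, mrank W X n ≤ finrank W.K (tsub Φ (Y163.sq X n) ((n + 1) * X.dim)) := fun n =>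
    (kRank_le _ _).trans (Submodule.finrank_mono (span_le_tsub Φ _ _))
  have htz : ∀ n, finrank W.K (tsub Φ (Y163.sq X n) ((n + 1) * X.dim)) ≤
      finrank W.K (genU Φ (sq X n) ((n + 1) * X.dim)) := fun n =>
    Submodule.finrank_mono (tsub_le_genU Φ _ _)
  refine ⟨fun n => finrank W.K (tsub Φ (Y163.sq X n) ((n + 1) * X.dim)),
    fun n => finrank W.K (genU Φ (sq X n) ((n + 1) * X.dim)), mrank W X, fun n => rfl,
    fun n => poleOrderIs hp (hRH _) (by rw [dim_sq]; omega), fun n => (numRank_sq X n).symm,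
    fun n => ⟨hpos n, hrt n, htz n⟩, ?_⟩
  by_cases hss : Module.End.IsSemisimple (frobAll Φ X)
  · left
    refine ⟨semiAt_of_semisimple Φ hss, fun n => ?_⟩
    exact congrArg (fun U : Submodule W.K (W.H (Y163.sq X n)) => finrank W.K U)
      (tsub_eq_genU Φ hss n _)
  · right
    obtain ⟨κ', hκ', ht⟩ := tate_growth hENDP hKERN hp hK Φ σ hRH X hss
    have hlim := growth_ratio (by positivity) hκ hgr ht
    obtain ⟨c, hc, h⟩ := rank_nonsemisimple hBLKG hp hK Φ σ hNSU hRH X hss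
    refine ⟨exists_not_semiAt hp hK Φ σ hRH X hss, ⟨κ' / κ, div_pos hκ' hκ, hlim⟩, ?_⟩
    -- a lower bound for the quotient
    obtain ⟨c₁, hc₁, h₁⟩ : ∃ c₁ : ℝ, 0 < c₁ ∧ ∀ n : ℕ,
        c₁ * finrank W.K (genU Φ (sq X n) ((n + 1) * X.dim)) ≤
          √((n : ℝ) + 1) * finrank W.K (tsub Φ (Y163.sq X n) ((n + 1) * X.dim)) := by
      have hz0 : ∀ n, (0 : ℝ) < finrank W.K (genU Φ (sq X n) ((n + 1) * X.dim)) := fun n => by
        exact_mod_cast (hpos n).trans_le ((hrt n).trans (htz n))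
      have ht0 : ∀ n, (0 : ℝ) < finrank W.K (tsub Φ (Y163.sq X n) ((n + 1) * X.dim)) := fun n => by
        exact_mod_cast (hpos n).trans_le (hrt n)
      obtain ⟨B, hB⟩ := (hlim.inv₀ (div_pos hκ' hκ).ne').bddAbove_range
      have hBn : ∀ n : ℕ, (√((n : ℝ) + 1) * finrank W.K (tsub Φ (Y163.sq X n) ((n + 1) * X.dim)) /
          finrank W.K (genU Φ (sq X n) ((n + 1) * X.dim)))⁻¹ ≤ B := fun n => hB ⟨n, rfl⟩
      have hu : ∀ n : ℕ, (0 : ℝ) < √((n : ℝ) + 1) := fun n => Real.sqrt_pos.2 (by positivity)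
      have hBpos : 0 < B := lt_of_lt_of_le (inv_pos.2 (div_pos (mul_pos (hu 0) (ht0 0)) (hz0 0)))
        (hBn 0)
      refine ⟨B⁻¹, inv_pos.2 hBpos, fun n => ?_⟩
      have h2 := hBn n
      rw [inv_div, div_le_iff₀ (mul_pos (hu n) (ht0 n))] at h2
      rw [inv_mul_le_iff₀ hBpos]
      exact h2
    refine ⟨min c (c * c₁), lt_min hc (mul_pos hc hc₁), fun n => ⟨?_, ?_⟩⟩
    · refine le_trans ?_ (h n)
      gcongr
      exact min_le_left _ _
    · have hn : (0 : ℝ) < (n : ℝ) + 1 := by positivity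
      have hsq : (0 : ℝ) < √((n : ℝ) + 1) := Real.sqrt_pos.2 hn
      have e1 : ((n : ℝ) + 1) ^ (3 / 2 : ℝ) = √((n : ℝ) + 1) * ((n : ℝ) + 1) := by
        rw [Real.sqrt_eq_rpow, ← Real.rpow_add_one hn.ne']
        norm_num
      have h2 := h n
      rw [e1] at h2
      have h3 : √((n : ℝ) + 1) * (c * c₁ * ((n : ℝ) + 1) * mrank W X n) ≤
          √((n : ℝ) + 1) * finrank W.K (tsub Φ (Y163.sq X n) ((n + 1) * X.dim)) := by
        refine le_trans ?_ (h₁ n)
        calc √((n : ℝ) + 1) * (c * c₁ * ((n : ℝ) + 1) * mrank W X n) =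
            c₁ * (c * (√((n : ℝ) + 1) * ((n : ℝ) + 1)) * mrank W X n) := by ring
          _ ≤ c₁ * finrank W.K (genU Φ (sq X n) ((n + 1) * X.dim)) := by gcongr
      refine le_trans ?_ (le_of_mul_le_mul_left h3 hsq)
      gcongr
      exact min_le_right _ _

end Pool.Agent.L7h85.PW
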