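import Mathlib

/-!
# Linear algebra for the count of the Tate classes
-/

set_option autoImplicit false

namespace Pool.Agent.L7h85.PW

open Module Polynomial TensorProduct

section ker

variable {K : Type*} [Field K] {V : Type*} [AddCommGroup V] [Module K V] [Module.Finite K V]

lemma finrank_ker_prod (D : Module.End K V) (S : Finset K) :
    finrank K (LinearMap.ker (aeval D (∏ c ∈ S, (X - C c)))) =
      ∑ c ∈ S, finrank K (LinearMap.ker (D - c • (1 : Module.End K V))) := by
  classical
  induction S using Finset.induction_on with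
  | empty =>
    rw [Finset.prod_empty, Finset.sum_empty, map_one, Module.End.one_eq_id, LinearMap.ker_id,
      finrank_bot]
  | insert a S ha ih =>
    have hcop : IsCoprime (X - C a) (∏ c ∈ S, (X - C c)) := by
      apply IsCoprime.prod_right
      intro c hc
      have hne : a ≠ c := by
        rintro rfl
        exact ha hc
      exact isCoprime_X_sub_C_of_isUnit_sub (sub_ne_zero.2 hne).isUnit
    rw [Finset.prod_insert ha, Finset.sum_insert ha, ← ih,
      ← Polynomial.sup_ker_aeval_eq_ker_aeval_mul_of_coprime D hcop]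
    have hd := Polynomial.disjoint_ker_aeval_of_isCoprime D hcop
    have h1 := Submodule.finrank_sup_add_finrank_inf_eq (LinearMap.ker (aeval D (X - C a)))
      (LinearMap.ker (aeval D (∏ c ∈ S, (X - C c))))
    rw [hd.eq_bot, finrank_bot, add_zero] at h1
    rw [h1]
    have e1 : aeval D (X - C a) = D - a • (1 : Module.End K V) := by
      rw [map_sub, aeval_X, aeval_C, Algebra.algebraMap_eq_smul_one]
    rw [e1]

lemma finrank_ker_pow [IsAlgClosed K] [CharZero K] (D : Module.End K V) {M : ℕ} (hM : 0 < M)
    {c₀ : K} (h0 : c₀ ≠ 0) : ∃ S : Finset K, (∀ c, c ∈ S ↔ c ^ M = c₀ ^ M) ∧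
    finrank K (LinearMap.ker (D ^ M - (c₀ ^ M) • (1 : Module.End K V))) =
      ∑ c ∈ S, finrank K (LinearMap.ker (D - c • (1 : Module.End K V))) := by
  classical
  set P : K[X] := X ^ M - C (c₀ ^ M) with hP
  have hPm : P.Monic := monic_X_pow_sub_C _ hM.ne'
  have hsep : P.Separable := separable_X_pow_sub_C _ (Nat.cast_ne_zero.2 hM.ne')
    (pow_ne_zero _ h0)
  have hnd : P.roots.Nodup := nodup_roots hsep
  have hsplit := IsAlgClosed.splits P
  refine ⟨P.roots.toFinset, fun c => ?_, ?_⟩
  · rw [Multiset.mem_toFinset, mem_roots hPm.ne_zero, IsRoot.def, hP]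
    simp only [eval_sub, eval_pow, eval_X, eval_C]
    exact sub_eq_zero
  · rw [← finrank_ker_prod]
    have h1 : ∏ c ∈ P.roots.toFinset, (X - C c) = P := by
      have h2 : ∏ c ∈ P.roots.toFinset, (X - C c) = (P.roots.map fun c => X - C c).prod := by
        rw [Finset.prod, Multiset.toFinset_val, Multiset.dedup_eq_self.2 hnd]
      rw [h2]
      exact (hsplit.eq_prod_roots_of_monic hPm).symm
    rw [h1, hP, map_sub, map_pow, aeval_X, aeval_C, Algebra.algebraMap_eq_smul_one]

end ker

section conj

variable {K : Type*} [Field K] {V V' : Type*} [AddCommGroup V] [Module K V] [AddCommGroup V']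
  [Module K V']

lemma finrank_ker_conj (φ : V ≃ₗ[K] V') {f : Module.End K V} {g : Module.End K V'}
    (h : ∀ x, φ (f x) = g (φ x)) (c : K) : finrank K (LinearMap.ker (f - c • (1 : Module.End K V))) =
      finrank K (LinearMap.ker (g - c • (1 : Module.End K V'))) := by
  have h1 : (LinearMap.ker (f - c • (1 : Module.End K V))).map φ.toLinearMap =
      LinearMap.ker (g - c • (1 : Module.End K V')) := by
    ext y
    constructor
    · rintro ⟨x, hx, rfl⟩
      have hx' : f x - c • x = 0 := hx
      change g (φ x) - c • φ x = 0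
      rw [← h, ← map_smul, ← map_sub, hx', map_zero]
    · intro hy
      have hy' : g y - c • y = 0 := hy
      refine ⟨φ.symm y, ?_, by simp⟩
      change f (φ.symm y) - c • φ.symm y = 0
      apply φ.injective
      rw [map_sub, map_smul, h, LinearEquiv.apply_symm_apply, hy', map_zero]
  rw [← h1]
  exact (LinearEquiv.finrank_map_eq φ _).symm

end conj

section iso

variable {K : Type*} [Field K] (V : ℕ → Type*) [∀ n, AddCommGroup (V n)] [∀ n, Module K (V n)]
  (e : ∀ n, (V 0 ⊗[K] V n) ≃ₗ[K] V (n + 1)) (E : ∀ n, V n →ₗ[K] V n)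

include e in
lemma iso_pairs (he : ∀ n, E (n + 1) ∘ₗ (e n).toLinearMap =
    (e n).toLinearMap ∘ₗ TensorProduct.map (E 0) (E n)) (m : ℕ) : ∀ n N : ℕ, n + m + 1 = N →
    ∃ φ : (V n ⊗[K] V m) ≃ₗ[K] V N, ∀ x, φ (TensorProduct.map (E n) (E m) x) = E N (φ x) := by
  have he' : ∀ n x, E (n + 1) (e n x) = e n (TensorProduct.map (E 0) (E n) x) := by
    intro n x
    exact LinearMap.congr_fun (he n) x
  intro n
  induction n with
  | zero =>
    intro N hN
    obtain rfl : m + 1 = N := by omega
    exact ⟨e m, fun x => (he' m x).symm⟩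
  | succ n ih =>
    intro N hN
    obtain ⟨N', rfl⟩ : ∃ N', N = N' + 1 := ⟨N - 1, by omega⟩
    obtain ⟨ψ, hψ⟩ := ih N' (by omega)
    let a : (V (n + 1) ⊗[K] V m) ≃ₗ[K] ((V 0 ⊗[K] V n) ⊗[K] V m) :=
      TensorProduct.congr (e n).symm (LinearEquiv.refl K _)
    let b := TensorProduct.assoc K (V 0) (V n) (V m)
    let c : (V 0 ⊗[K] (V n ⊗[K] V m)) ≃ₗ[K] (V 0 ⊗[K] V N') :=
      TensorProduct.congr (LinearEquiv.refl K _) ψ
    have h1 : ∀ y, TensorProduct.map (E (n + 1)) (E m) (a.symm y) =
        a.symm (TensorProduct.map (TensorProduct.map (E 0) (E n)) (E m) y) := by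
      intro y
      induction y with
      | zero => simp
      | add y z hy hz => simp only [map_add, hy, hz]
      | tmul y z =>
        change TensorProduct.map (E (n + 1)) (E m) (e n y ⊗ₜ z) =
          e n (TensorProduct.map (E 0) (E n) y) ⊗ₜ E m z
        rw [TensorProduct.map_tmul, he']
    have h2 : ∀ y, b (TensorProduct.map (TensorProduct.map (E 0) (E n)) (E m) y) =
        TensorProduct.map (E 0) (TensorProduct.map (E n) (E m)) (b y) := by
      intro y
      induction y with
      | zero => simp
      | add y z hy hz => simp only [map_add, hy, hz]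
      | tmul y z =>
        induction y with
        | zero => simp
        | add y y' hy hy' => simp only [map_add, hy, hy', TensorProduct.add_tmul]
        | tmul y y' => rfl
    have h3 : ∀ z, c (TensorProduct.map (E 0) (TensorProduct.map (E n) (E m)) z) =
        TensorProduct.map (E 0) (E N') (c z) := by
      intro z
      induction z with
      | zero => simp
      | add y z hy hz => simp only [map_add, hy, hz]
      | tmul y z =>
        change E 0 y ⊗ₜ ψ (TensorProduct.map (E n) (E m) z) = E 0 y ⊗ₜ E N' (ψ z)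
        rw [hψ]
    refine ⟨((a.trans b).trans c).trans (e N'), fun x => ?_⟩
    obtain ⟨y, rfl⟩ := a.symm.surjective x
    rw [h1]
    simp only [LinearEquiv.trans_apply, LinearEquiv.apply_symm_apply]
    rw [h2, h3, he']

end iso

end Pool.Agent.L7h85.PW
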