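import Pool.Agent.L7h85.PW.Stm
import Pool.Agent.L7h85.RL.Abs
import Pool.Agent.L7h32.RL.Bas

/-!
# The root law without logarithm: from blocks to all exponents
-/

set_option autoImplicit false

namespace Pool.Agent.L7h85.PW

open Finset Pool.Agent.L7h85.RL Pool.Agent.L7h32.RL

universe u v

variable {Ob : Type u} {𝒮 : Sys Ob}

theorem cl_pwpw (V : Ob) (κ N : ℕ) :
    cl 𝒮 (𝒮.pw (𝒮.pw V κ) N) = cl 𝒮 (𝒮.pw V ((κ + 1) * (N + 1) - 1)) := by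
  have hm : (κ + 1) * (N + 1) - 1 + 1 = (κ + 1) * (N + 1) := Nat.sub_add_cancel (Nat.succ_le_of_lt (by positivity))
  apply WithOne.coe_injective
  rw [cl_pw, cl_pw, cl_pw, hm, ← pow_mul]

theorem cl_wqpw (V : Ob) (κ N : ℕ) :
    cl 𝒮 (𝒮.wq (𝒮.pw V κ) N) = cl 𝒮 (𝒮.wq V ((κ + 1) * (N + 1) - 1)) := by
  have hm : (κ + 1) * (N + 1) - 1 + 1 = (κ + 1) * (N + 1) := Nat.sub_add_cancel (Nat.succ_le_of_lt (by positivity))
  apply WithOne.coe_injective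
  rw [cl_wq, cl_wq, cl_pw, cl_srpw, hm, ← pow_mul, ← pow_mul]

theorem h_pwpw (V : Ob) (κ N : ℕ) :
    𝒮.h (𝒮.pw (𝒮.pw V κ) N) (𝒮.pw (𝒮.pw V κ) N) =
      𝒮.h (𝒮.pw V ((κ + 1) * (N + 1) - 1)) (𝒮.pw V ((κ + 1) * (N + 1) - 1)) := by
  rw [← hh_cl, ← hh_cl, cl_pwpw]

theorem split_pwpw {T : Ob → Prop} {V : Ob} {O R : ℕ → Ob}
    (hs : ∀ n, 𝒮.IsSplit T (𝒮.wq V n) (O n) (R n)) (κ N : ℕ) :
    𝒮.IsSplit T (𝒮.wq (𝒮.pw V κ) N) (O ((κ + 1) * (N + 1) - 1)) (R ((κ + 1) * (N + 1) - 1)) := by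
  have hm : (κ + 1) * (N + 1) - 1 + 1 = (κ + 1) * (N + 1) := Nat.sub_add_cancel (Nat.succ_le_of_lt (by positivity))
  have h := hs ((κ + 1) * (N + 1) - 1)
  refine ⟨h.mem, fun C => ?_, ?_, h.no⟩
  · rw [← h.split, ← hh_cl, ← hh_cl, cl_wqpw]
  · rw [← h.dim, Pool.Agent.L7h32.RL.dim_wq, Pool.Agent.L7h32.RL.dim_wq,
      Pool.Agent.L7h32.RL.dim_pw, ← pow_mul, hm]
    congr 1
    ring

/-- the dimensions of the parts in `T` are increasing -/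
theorem dim_mono (hDIM : S_DIM.{u, v}) {T : Ob → Prop} (hT : 𝒮.IsStable T) {V : Ob}
    (hV : 0 < 𝒮.dim V) {O R : ℕ → Ob} (hs : ∀ n, 𝒮.IsSplit T (𝒮.wq V n) (O n) (R n))
    {Λ : Type} [Fintype Λ] {U : Λ → Ob} {Γ : Type v} [CommGroup Γ] {g : Λ → Γ}
    (hd : IsDec 𝒮 T V U g) :
    (∀ n, 0 < 𝒮.dim (O n)) ∧ Monotone fun n => 𝒮.dim (O n) := by
  classical
  obtain ⟨a, -, -⟩ : ∃ a ∈ (univ : Finset Λ), 𝒮.dim (U a) ≠ 0 := by
    apply Finset.exists_ne_zero_of_sum_ne_zero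
    rw [← hd.dim]
    exact hV.ne'
  have hm : Monotone fun n => 𝒮.dim (O n) := by
    refine monotone_nat_of_le_succ fun n => ?_
    rw [hDIM 𝒮 T hT V Λ U Γ g hd n _ _ (hs n), hDIM 𝒮 T hT V Λ U Γ g hd (n + 1) _ _ (hs (n + 1))]
    let e : (Fin (n + 1) → Λ) ↪ (Fin (n + 1 + 1) → Λ) :=
      ⟨fun x => Fin.cons a x, fun x y h => Fin.cons_right_injective _ h⟩
    have hmap : ∀ f : (Fin (n + 1 + 1) → Λ) → ℕ, ∑ x, f (e x) ≤ ∑ x, f x := by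
      intro f
      rw [← Finset.sum_map univ e f]
      exact Finset.sum_le_sum_of_subset (Finset.subset_univ _)
    refine le_trans (Finset.sum_le_sum fun x _ => ?_) (hmap _)
    refine le_trans (Finset.sum_le_sum fun y _ => ?_) (hmap _)
    have e1 : ∀ x : Fin (n + 1) → Λ, ∏ i, g ((e x) i) = g a * ∏ i, g (x i) := by
      intro x
      rw [Fin.prod_univ_succ]
      rfl
    have e2 : ∀ x : Fin (n + 1) → Λ, ∏ i, 𝒮.dim (U ((e x) i)) =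
        𝒮.dim (U a) * ∏ i, 𝒮.dim (U (x i)) := by
      intro x
      rw [Fin.prod_univ_succ]
      rfl
    rw [e1, e1, e2, e2]
    by_cases h : ∏ i, g (x i) = ∏ i, g (y i)
    · rw [if_pos h, if_pos (by rw [h])]
      have := hd.pos a
      exact Nat.mul_le_mul (Nat.le_mul_of_pos_left _ this) (Nat.le_mul_of_pos_left _ this)
    · rw [if_neg h]
      exact Nat.zero_le _
  refine ⟨fun n => lt_of_lt_of_le ?_ (hm (Nat.zero_le n)), hm⟩
  change 0 < 𝒮.dim (O 0)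
  rw [hDIM 𝒮 T hT V Λ U Γ g hd 0 _ _ (hs 0)]
  refine Finset.sum_pos' (fun _ _ => Nat.zero_le _) ⟨fun _ => a, Finset.mem_univ _, ?_⟩
  refine Finset.sum_pos' (fun _ _ => Nat.zero_le _) ⟨fun _ => a, Finset.mem_univ _, ?_⟩
  rw [if_pos rfl]
  exact Nat.mul_pos (Finset.prod_pos fun _ _ => hd.pos a) (Finset.prod_pos fun _ _ => hd.pos a)

theorem s_NOLOG (hDIM : S_DIM.{u, v}) (hBLK : S_BLK'.{u, v}) (hFIN : S_FIN2.{u, v}) :
    S_NOLOG.{u, v} := by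
  intro Ob 𝒮 T hT V O R hV hs Λ' _ U' Γ' _ g' hgr e hpoly Λ _ U Γ _ g hdec
  by_cases hall : ∀ κ a, Low 𝒮 (U κ a)
  · left
    exact hFIN 𝒮 T hT V O R hV hs Λ' U' Γ' g' hgr Λ U Γ g hdec hall
  right
  push Not at hall
  obtain ⟨κ, a, hκ⟩ := hall
  have hREP : S_REP.{u} := L7h26.RL.s_REP
  have hSCF : S_SCF.{u} := L7h73.RL.s_SCF hREP
  have hCLO : S_CLO.{u} := L7h73.RL.s_CLO hREP hSCF L7h26.RL.s_LOG
  have hDICH : S_DICH.{u} := L7h73.RL.s_DICH hREP hCLO L7h89.RL.s_NASH L7h89.RL.s_REC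
  obtain ⟨C, hC, hE⟩ := (hDICH 𝒮 (U κ a) ((hdec κ).pos a)).resolve_left hκ
  set M := κ + 1 with hM
  set b := 𝒮.dim V with hb
  have hα : ∀ n s, 𝒮.h (𝒮.pw V (n + s)) (𝒮.pw V (n + s)) ≤
      b ^ (2 * s) * 𝒮.h (𝒮.pw V n) (𝒮.pw V n) := by
    intro n s
    induction s with
    | zero => simp
    | succ s ih =>
      have h1 := (hSCF 𝒮 V PUnit (fun _ => 1) (fun _ => 𝒮.pw V (n + s))).1
      simp only [Finset.univ_unique, Finset.sum_singleton, one_mul] at h1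
      calc 𝒮.h (𝒮.pw V (n + (s + 1))) (𝒮.pw V (n + (s + 1))) ≤
          b ^ 2 * 𝒮.h (𝒮.pw V (n + s)) (𝒮.pw V (n + s)) := h1
        _ ≤ b ^ 2 * (b ^ (2 * s) * 𝒮.h (𝒮.pw V n) (𝒮.pw V n)) := Nat.mul_le_mul_left _ ih
        _ = _ := by rw [← mul_assoc, ← pow_add]; congr 2; ring
  have hpoly' : ∀ N, 𝒮.dim (𝒮.pw V κ) ^ (2 * (N + 1)) ≤
      𝒮.h (𝒮.pw (𝒮.pw V κ) N) (𝒮.pw (𝒮.pw V κ) N) * (N + 2) ^ ((M + 2) * e) := by
    intro N
    have hm : M * (N + 1) - 1 + 1 = M * (N + 1) := Nat.sub_add_cancel (Nat.succ_le_of_lt (by positivity))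
    rw [h_pwpw, Pool.Agent.L7h32.RL.dim_pw, ← pow_mul]
    have h1 := hpoly (M * (N + 1) - 1)
    rw [hm] at h1
    refine le_trans (le_of_eq ?_) (h1.trans (Nat.mul_le_mul_left _ ?_))
    · congr 1
      ring
    · rw [pow_mul]
      apply Nat.pow_le_pow_left
      have h2 : M < 2 ^ M := Nat.lt_two_pow_self
      have h3 : 2 ^ M ≤ (N + 2) ^ M := Nat.pow_le_pow_left (by omega) _
      calc M * (N + 1) - 1 + 2 = M * (N + 1) + 1 := by omega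
        _ ≤ (N + 2) ^ M * (N + 2) ^ 2 := by
            have h4 : M * (N + 1) ≤ (N + 2) ^ M * (N + 1) :=
              Nat.mul_le_mul_right _ (h2.le.trans h3)
            have h5 : 1 ≤ (N + 2) ^ M := Nat.one_le_pow _ _ (by omega)
            nlinarith
        _ = (N + 2) ^ (M + 2) := by rw [← pow_add]
  obtain ⟨c, hc, hblk⟩ := hBLK 𝒮 T hT (𝒮.pw V κ) (fun N => O (M * (N + 1) - 1))
    (fun N => R (M * (N + 1) - 1)) (split_pwpw hs κ) (Λ κ) (U κ) Γ (g κ) (hdec κ)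
    ((M + 2) * e) hpoly' a C hC hE
  obtain ⟨hz, hmono⟩ := dim_mono hDIM hT hV hs (hdec 0)
  have hb1 : (1 : ℝ) ≤ b := by exact_mod_cast hV
  have hMpos : (0 : ℝ) < M := by rw [hM]; positivity
  -- the constant
  set c₀ := min c 1 / (√(2 * M) * (b : ℝ) ^ (2 * M)) with hc₀
  have hden : 0 < √(2 * M) * (b : ℝ) ^ (2 * M) := by
    have : 0 < √(2 * (M : ℝ)) := Real.sqrt_pos.2 (by positivity)
    positivity
  have hc₀pos : 0 < c₀ := div_pos (lt_min hc one_pos) hden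
  refine ⟨c₀, hc₀pos, fun n => ?_⟩
  rcases lt_or_ge (n + 1) M with hn | hn
  · -- small exponents
    have h1 : 𝒮.h (𝒮.pw V n) (𝒮.pw V n) ≤ b ^ (2 * M) := by
      have h2 := hα 0 n
      rw [zero_add] at h2
      have h3 : 𝒮.h (𝒮.pw V 0) (𝒮.pw V 0) ≤ b ^ 2 := h_self_le 𝒮 V
      calc _ ≤ b ^ (2 * n) * b ^ 2 := h2.trans (Nat.mul_le_mul_left _ h3)
        _ = b ^ (2 * n + 2) := by rw [pow_add]
        _ ≤ b ^ (2 * M) := Nat.pow_le_pow_right hV (by omega)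
    have h2 : √((n : ℝ) + 1) ≤ √(2 * M) := by
      apply Real.sqrt_le_sqrt
      have : ((n + 1 : ℕ) : ℝ) < M := by exact_mod_cast hn
      push_cast at this
      linarith
    have h3 : (1 : ℝ) ≤ 𝒮.dim (O n) := by exact_mod_cast hz n
    refine le_trans ?_ h3
    have h4 : ((𝒮.h (𝒮.pw V n) (𝒮.pw V n) : ℕ) : ℝ) ≤ (b : ℝ) ^ (2 * M) := by exact_mod_cast h1
    calc c₀ * √((n : ℝ) + 1) * 𝒮.h (𝒮.pw V n) (𝒮.pw V n) ≤
        c₀ * √(2 * M) * (b : ℝ) ^ (2 * M) := by gcongr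
      _ = min c 1 := by
          rw [hc₀]
          field_simp
      _ ≤ 1 := min_le_right _ _
  · -- large exponents
    obtain ⟨N, hN⟩ : ∃ N, (n + 1) / M = N + 1 := by
      refine ⟨(n + 1) / M - 1, ?_⟩
      have : 0 < (n + 1) / M := Nat.div_pos hn (by omega)
      omega
    have hlo : M * (N + 1) ≤ n + 1 := by
      rw [← hN]
      exact Nat.mul_div_le _ _
    have hhi : n + 1 < M * (N + 2) := by
      have h1 := Nat.lt_mul_div_succ (n + 1) (show 0 < M by omega)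
      rw [hN] at h1
      exact h1
    have hm1 : 1 ≤ M * (N + 1) := Nat.mul_pos (by omega) (by omega)
    set m := M * (N + 1) - 1 with hm
    obtain ⟨s, hs'⟩ : ∃ s, n = m + s := ⟨n - m, by omega⟩
    have hsM : s ≤ M := by
      have : M * (N + 2) = M * (N + 1) + M := by ring
      omega
    have h1 : 𝒮.h (𝒮.pw V n) (𝒮.pw V n) ≤ b ^ (2 * M) * 𝒮.h (𝒮.pw V m) (𝒮.pw V m) := by
      rw [hs']
      refine (hα m s).trans (Nat.mul_le_mul_right _ (Nat.pow_le_pow_right hV (by omega)))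
    have h1' : ((𝒮.h (𝒮.pw V n) (𝒮.pw V n) : ℕ) : ℝ) ≤
        (b : ℝ) ^ (2 * M) * 𝒮.h (𝒮.pw V m) (𝒮.pw V m) := by exact_mod_cast h1
    have h2 : √((n : ℝ) + 1) ≤ √(2 * M) * √((N : ℝ) + 1) := by
      rw [← Real.sqrt_mul (by positivity)]
      apply Real.sqrt_le_sqrt
      have h3 : ((n + 1 : ℕ) : ℝ) < ((M * (N + 2) : ℕ) : ℝ) := by exact_mod_cast hhi
      push_cast at h3
      have h4 : (0 : ℝ) ≤ N := Nat.cast_nonneg N
      nlinarith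
    have h3 : c * √((N : ℝ) + 1) * 𝒮.h (𝒮.pw V m) (𝒮.pw V m) ≤ 𝒮.dim (O m) := by
      have := hblk N
      rw [h_pwpw] at this
      exact this
    have h4 : ((𝒮.dim (O m) : ℕ) : ℝ) ≤ 𝒮.dim (O n) := by
      exact_mod_cast hmono (show m ≤ n by omega)
    refine le_trans ?_ h4
    calc c₀ * √((n : ℝ) + 1) * 𝒮.h (𝒮.pw V n) (𝒮.pw V n) ≤
        c₀ * (√(2 * M) * √((N : ℝ) + 1)) *
          ((b : ℝ) ^ (2 * M) * 𝒮.h (𝒮.pw V m) (𝒮.pw V m)) := by gcongr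
      _ = min c 1 * √((N : ℝ) + 1) * 𝒮.h (𝒮.pw V m) (𝒮.pw V m) := by
          rw [hc₀]
          field_simp
      _ ≤ c * √((N : ℝ) + 1) * 𝒮.h (𝒮.pw V m) (𝒮.pw V m) := by
          gcongr
          exact min_le_left _ _
      _ ≤ _ := h3

end Pool.Agent.L7h85.PW
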