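import Pool.Agent.L7h85.PW.Stm
import Pool.Agent.L7h85.RL.Geo
import Pool.Agent.L7h85.GR.Defs

/-!
# The exact growth of the orders of the poles: geometric part
-/

set_option linter.unusedVariables false
set_option linter.unusedSectionVars false

open CategoryTheory AlgebraicGeometry CategoryTheory.Limits

universe u v

namespace Pool.Agent.L7h85.PW

open Pool.Agent.H914 Pool.Agent.H447 Pool.Agent.W534 VarClass Obj WeilCohomology Module
open Pool.Agent.Y163 Pool.Agent.L7h85.RL Pool.Agent.R908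
open Pool.Agent.L7h85.GR (eigs)

variable {k : Type u} [Field k] {𝒱 : VarClass k} {ops : CycleOps 𝒱}
  {W : WeilCohomology.{u, v} ops} {p : ℕ}

/-- [GRX] The decomposition of a variety by the classes modulo torsion of the eigenvalues of the
Frobenius endomorphism.

Proof (see `L7h97/RL/Grd.lean`: `Wt`, `Wt.mul`, `Wt.GT`, `Wt.kill`, `exists_spectral`, `gh_sum`, and the
proof of `s_GRD`): let `s > 0` be such that two eigenvalues of `F ^ s`, `F = frob Φ X 1`, whose quotient
is a root of unity are equal. Take the projectors `e a ≠ 0` of the spectral decomposition of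
`F ^ s = frob Φ X s`, with the DISTINCT eigenvalues `l a`, `U a = ⟨X, e a, _, _⟩`, `ν a` with
`ν a ^ s = l a` (`K` is algebraically closed; `ν a` may be an eigenvalue of `F`), `g a` the class of `ν a`.
Then `Wt Φ X (U a) (ν a)`; and `Wt Φ X A ν` implies `Wt Φ X (gdual A) (p ^ (Φ.e X * A.Z.dim) / ν)`,
because `adj (F ^ s) * F ^ s` is the multiplication by `p ^ (Φ.e X * s * dim X)`
(`L7h89.RL.adj_frob_mul`); so words `x`, `y` with `n + 1` letters have
`Wt Φ X (x ⊗ y*) (∏ ν (x i) / ∏ ν (y i) * p ^ (Φ.e X * dim X * (n + 1)))`, in a variety of dimension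
`2 (n + 1) dim X`, and `Wt.GT`, `Wt.kill` with `gh_zero` give `mem`, `no` as in `s_GRD`. -/
def S_GRX (Φ : FrobSystem W p) (σ : W.K →+* ℂ) : Prop := 1 < p → IsAlgClosed W.K →
  (∀ Z : 𝒱.Obj, RiemannHyp Φ σ Z) → ∀ 𝒮 : Sys (GOb W), IsGeo 𝒮 → ∀ X : 𝒱.Obj,
    ∃ (Λ : Type) (_ : Fintype Λ) (U : Λ → GOb W) (g : Λ → (W.Kˣ ⧸ CommGroup.torsion W.Kˣ)),
      IsDec 𝒮 (GT Φ) (gone W X) U g ∧
      Set.range g = {c | ∃ x : W.Kˣ, (x : W.K) ∈ eigs (frobAll Φ X) ⊤ ∧ c = QuotientGroup.mk x}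

end Pool.Agent.L7h85.PW
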