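import Pool.Agent.L7h85.PW.Stm3
import Pool.Agent.L7h85.GR.Gen
import Pool.Agent.L7h85.GR.Sub
import Pool.Agent.L7h85.GR.Defs

/-!
# The asymptotics of the numbers of pairs of weighted words
-/

set_option autoImplicit false

namespace Pool.Agent.L7h85.PW

open Finset Filter Topology Pool.Agent.L7h85.GR

universe u v

/-- functions with fibres of the same cardinalities -/
lemma exists_perm {ι A : Type*} [Fintype ι] [DecidableEq A] (u u' : ι → A)
    (h : ∀ a, (univ.filter fun i => u i = a).card = (univ.filter fun i => u' i = a).card) :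
    ∃ σ : ι ≃ ι, ∀ i, u' (σ i) = u i := by
  have h1 : ∀ a, Nonempty ({i // u i = a} ≃ {i // u' i = a}) := by
    intro a
    rw [← Fintype.card_eq, Fintype.card_subtype, Fintype.card_subtype]
    exact h a
  have e := fun a => (h1 a).some
  let σ : ι ≃ ι := ((Equiv.sigmaFiberEquiv u).symm.trans
    (Equiv.sigmaCongrRight fun a => e a)).trans (Equiv.sigmaFiberEquiv u')
  refine ⟨σ, fun i => ?_⟩
  exact (e (u i) ⟨i, rfl⟩).2

section rank

variable {Γ : Type v} [AddCommGroup Γ] {κ : Type*} [Finite κ]

/-- the rank of a group generated by finitely many elements of `Γ × ℤ` -/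
lemma rank_prod (w : κ → Γ × ℤ) {m : ℤ} (hm : m ≠ 0)
    (h0 : ((0 : Γ), m) ∈ AddSubgroup.closure (Set.range w)) :
    Module.finrank ℤ (AddSubgroup.closure (Set.range w)) =
      Module.finrank ℤ (AddSubgroup.closure (Set.range fun i => (w i).1)) + 1 := by
  set L := AddSubgroup.closure (Set.range w) with hL
  set G := AddSubgroup.closure (Set.range fun i => (w i).1) with hG
  have hfin : Module.Finite ℤ L := by
    have h1 : AddGroup.FG L := by
      rw [AddGroup.fg_iff_addSubgroup_fg]
      exact ⟨(Set.finite_range w).toFinset, by rw [Set.Finite.coe_toFinset]⟩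
    exact Module.Finite.iff_addGroup_fg.2 h1
  let f : L →+ Γ := (AddMonoidHom.fst Γ ℤ).comp L.subtype
  have hfr : f.range = G := by
    apply le_antisymm
    · rintro _ ⟨⟨x, hx⟩, rfl⟩
      change x.1 ∈ G
      induction hx using AddSubgroup.closure_induction with
      | mem x hx =>
        obtain ⟨i, rfl⟩ := hx
        exact AddSubgroup.subset_closure ⟨i, rfl⟩
      | zero => exact AddSubgroup.zero_mem _
      | add x y _ _ hx hy => exact AddSubgroup.add_mem _ hx hy
      | neg x _ hx => exact AddSubgroup.neg_mem _ hx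
    · rw [hG, AddSubgroup.closure_le]
      rintro _ ⟨i, rfl⟩
      exact ⟨⟨w i, AddSubgroup.subset_closure ⟨i, rfl⟩⟩, rfl⟩
  have h1 := Submodule.finrank_quotient_add_finrank (LinearMap.ker f.toIntLinearMap)
  rw [LinearEquiv.finrank_eq f.toIntLinearMap.quotKerEquivRange] at h1
  have h2 : Module.finrank ℤ (LinearMap.range f.toIntLinearMap) = Module.finrank ℤ G := by
    rw [← hfr]
    rfl
  have h3 : Module.finrank ℤ (LinearMap.ker f.toIntLinearMap) = 1 := by
    let s : LinearMap.ker f.toIntLinearMap →ₗ[ℤ] ℤ :=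
      ((AddMonoidHom.snd Γ ℤ).comp L.subtype).toIntLinearMap ∘ₗ
        (LinearMap.ker f.toIntLinearMap).subtype
    have hs : Function.Injective s := by
      rw [← LinearMap.ker_eq_bot, LinearMap.ker_eq_bot']
      rintro ⟨⟨x, hx⟩, hx0⟩ h
      have e1 : x.1 = 0 := hx0
      have e2 : x.2 = 0 := h
      apply Subtype.ext
      apply Subtype.ext
      exact Prod.ext e1 e2
    have hfk : Module.Finite ℤ (LinearMap.ker f.toIntLinearMap) := inferInstance
    apply le_antisymm
    · have h4 := LinearMap.finrank_le_finrank_of_injective hs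
      rw [Module.finrank_self] at h4
      exact h4
    · let x₀ : LinearMap.ker f.toIntLinearMap := ⟨⟨((0 : Γ), m), h0⟩, rfl⟩
      have h4 : Function.Injective (LinearMap.toSpanSingleton ℤ _ x₀) := by
        intro a b hab
        have h5 := congrArg s hab
        rw [LinearMap.toSpanSingleton_apply, LinearMap.toSpanSingleton_apply, map_smul,
          map_smul, smul_eq_mul, smul_eq_mul] at h5
        exact mul_right_cancel₀ hm h5
      have h5 := LinearMap.finrank_le_finrank_of_injective h4
      rw [Module.finrank_self] at h5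
      exact h5
  rw [h2, h3] at h1
  exact h1.symm

end rank

open Classical in
/-- **The asymptotics of the numbers of Tate classes.** -/
theorem weighted_growth (hENDP : S_ENDP.{v}) {Γ : Type v} [CommGroup Γ] {ι : Type} [Fintype ι]
    (g : ι → Γ) (h : ι → ℤ) (δ : Γ) (σ : ι ≃ ι) (hσg : ∀ i, g (σ i) = δ / g i)
    (hσh : ∀ i, h (σ i) = -h i) {i₁ i₂ i₃ : ι} (h1 : g i₁ = 1) (h2 : g i₂ = g i₃)
    (h3 : h i₂ ≠ h i₃) (t : ℕ → ℕ)
    (ht : ∀ n, t n = (univ.filter fun f : Fin (n + 1) → ι × ι =>
      ∏ k, (g (f k).1 * g (f k).2) = δ ^ (n + 1) ∧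
        (∑ k, (h (f k).1 + h (f k).2) = 0 ∨ ∑ k, (h (f k).1 + h (f k).2) = 1)).card) :
    ∃ κ : ℝ, 0 < κ ∧ Growth t (Fintype.card ι ^ 2)
      (Module.finrank ℤ (AddSubgroup.closure (Set.range fun i => Additive.ofMul (g i))) + 1) κ := by
  set w : ι × ι → Additive Γ × ℤ := fun x =>
    (Additive.ofMul (g x.1 * g x.2 / δ), h x.1 + h x.2) with hw
  set τ : ι × ι → ι × ι := fun x => (σ x.1, σ x.2) with hτ
  have hτb : Function.Bijective τ := (Equiv.prodCongr σ σ).bijective
  have hwτ : ∀ x, w (τ x) = -w x := by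
    intro x
    rw [hw, hτ]
    simp only
    rw [hσg, hσg, hσh, hσh, Prod.neg_mk, ← ofMul_inv]
    refine Prod.ext ?_ ?_
    · change Additive.ofMul _ = Additive.ofMul _
      congr 1
      rw [inv_div, div_mul_div_comm, div_div, mul_comm (g x.1 * g x.2) δ, mul_div_mul_left_eq_div]
    · change -h x.1 + -h x.2 = -(h x.1 + h x.2)
      ring
  have hw0 : w (i₁, σ i₁) = 0 := by
    rw [hw]
    simp only
    rw [hσg, hσh, mul_div_cancel, div_self', ofMul_one, add_neg_cancel]
    rfl
  obtain ⟨κ₀, hκ₀, hlim⟩ := lcl' w hτb hwτ hw0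
  set L := AddSubgroup.closure (Set.range w) with hL
  -- differences
  have hdiff : ∀ i j, (Additive.ofMul (g i / g j), h i - h j) ∈ L := by
    intro i j
    refine AddSubgroup.subset_closure ⟨(i, σ j), ?_⟩
    rw [hw]
    simp only
    rw [hσg, hσh]
    refine Prod.ext ?_ ?_
    · change Additive.ofMul _ = Additive.ofMul _
      congr 1
      rw [mul_div_assoc, div_div, mul_comm (g j) δ, ← div_div, div_self', one_div,
        div_eq_mul_inv]
    · change h i + -h j = h i - h j
      ring
  have hrank : Module.finrank ℤ L = Module.finrank ℤ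
      (AddSubgroup.closure (Set.range fun i => Additive.ofMul (g i))) + 1 := by
    have e1 := rank_prod w (m := h i₂ - h i₃) (sub_ne_zero.2 h3) (by
      have := hdiff i₂ i₃
      rw [h2, div_self', ofMul_one] at this
      exact this)
    rw [hL, e1]
    have e2 : AddSubgroup.closure (Set.range fun i => (w i).1) =
        AddSubgroup.closure (Set.range fun i => Additive.ofMul (g i)) := by
      apply le_antisymm
      · rw [AddSubgroup.closure_le]
        rintro _ ⟨x, rfl⟩
        have e3 : (w x).1 = Additive.ofMul (g x.1) + Additive.ofMul (g x.2) -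
            Additive.ofMul δ := rfl
        change (w x).1 ∈ AddSubgroup.closure _
        have e4 : Additive.ofMul δ = Additive.ofMul (g i₁) + Additive.ofMul (g (σ i₁)) := by
          rw [hσg, ← ofMul_mul, mul_div_cancel]
        rw [e3, e4]
        exact AddSubgroup.sub_mem _ (AddSubgroup.add_mem _ (AddSubgroup.subset_closure ⟨_, rfl⟩)
          (AddSubgroup.subset_closure ⟨_, rfl⟩)) (AddSubgroup.add_mem _
            (AddSubgroup.subset_closure ⟨_, rfl⟩) (AddSubgroup.subset_closure ⟨_, rfl⟩))
      · rw [AddSubgroup.closure_le]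
        rintro _ ⟨i, rfl⟩
        refine AddSubgroup.subset_closure ⟨(i, σ i₁), ?_⟩
        rw [hw]
        simp only
        rw [hσg, h1, div_one, mul_div_cancel_right]
    rw [e2]
  rw [hrank] at hlim
  -- the two end points
  set N : Additive Γ × ℤ → ℕ → ℕ := fun q n =>
    (univ.filter fun f : Fin n → ι × ι => ∑ k, w (f k) = q).card with hN
  have hsum : ∀ (n : ℕ) (f : Fin (n + 1) → ι × ι) (m : ℤ), (∑ k, w (f k) = (0, m)) ↔
      (∏ k, (g (f k).1 * g (f k).2) = δ ^ (n + 1) ∧ ∑ k, (h (f k).1 + h (f k).2) = m) := by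
    intro n f m
    rw [Prod.ext_iff, Prod.fst_sum, Prod.snd_sum]
    refine and_congr ?_ Iff.rfl
    change ∑ k, Additive.ofMul (g (f k).1 * g (f k).2 / δ) = 0 ↔ _
    rw [← ofMul_prod, Finset.prod_div_distrib, Finset.prod_const, Finset.card_univ,
      Fintype.card_fin]
    change Additive.ofMul _ = Additive.ofMul 1 ↔ _
    rw [Additive.ofMul.injective.eq_iff, div_eq_one]
  have htN : ∀ n, t n = N (0, 0) (n + 1) + N (0, 1) (n + 1) := by
    intro n
    rw [ht, hN]
    simp only [hsum]
    rw [← Finset.card_union_of_disjoint]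
    · congr 1
      ext f
      simp only [Finset.mem_filter, Finset.mem_univ, true_and, Finset.mem_union]
      tauto
    · rw [Finset.disjoint_filter]
      intro f _ ha hb
      have := ha.2.symm.trans hb.2
      exact absurd this (by norm_num)
  have hcw : ∀ n, cw w n = N (0, 0) n := by
    intro n
    rw [cw, Nat.card_eq_fintype_card, Fintype.card_subtype, hN]
    rfl
  have hcard : ((Fintype.card ι ^ 2 : ℕ) : ℝ) = (Fintype.card (ι × ι) : ℝ) := by
    rw [Fintype.card_prod, sq]
  have hev : ∀ᶠ n : ℕ in atTop, cw w (n + 1) ≠ 0 := by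
    have e1 := hlim.eventually (lt_mem_nhds hκ₀)
    filter_upwards [e1] with n hn h0
    rw [h0] at hn
    simp at hn
  by_cases hmem : ((0 : Additive Γ), (1 : ℤ)) ∈ L
  · -- both end points
    have e1 := hENDP (Additive Γ × ℤ) (ι × ι) w τ hτb hwτ _ hw0 _ hmem
    have e2 : Tendsto (fun n : ℕ => (N (0, 1) (n + 1) : ℝ) / cw w (n + 1)) atTop (𝓝 1) := by
      refine ((tendsto_add_atTop_iff_nat 1).2 e1).congr fun n => ?_
      simp only [hN]
      congr!
    refine ⟨κ₀ * (1 + 1), by positivity, ?_⟩
    have e3 := hlim.mul (tendsto_const_nhds (x := (1 : ℝ)).add e2)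
    rw [Growth]
    refine e3.congr' ?_
    filter_upwards [hev] with n hn
    have hn' : (cw w (n + 1) : ℝ) ≠ 0 := Nat.cast_ne_zero.2 hn
    rw [hcard, htN, ← hcw]
    push_cast
    change (cw w (n + 1) : ℝ) * ((n : ℝ) + 1) ^ (((Module.finrank ℤ (AddSubgroup.closure
      (Set.range fun i => Additive.ofMul (g i))) : ℝ) + 1) / 2) / (Fintype.card (ι × ι) : ℝ) ^
        (n + 1) * (1 + (N (0, 1) (n + 1) : ℝ) / (cw w (n + 1) : ℝ)) = _
    field_simp
  · -- one end point
    refine ⟨κ₀, hκ₀, ?_⟩
    rw [Growth]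
    refine hlim.congr fun n => ?_
    have hz : N (0, 1) (n + 1) = 0 := by
      rw [hN]
      simp only
      rw [Finset.card_eq_zero, Finset.filter_eq_empty_iff]
      intro f _ hf
      apply hmem
      rw [← hf]
      exact AddSubgroup.sum_mem _ fun k _ => AddSubgroup.subset_closure ⟨_, rfl⟩
    rw [hcard, htN, hz, add_zero, ← hcw]

end Pool.Agent.L7h85.PW
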