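import Pool.Agent.L7h85.PW.Stm3
import Pool.Agent.L7h85.PW.Lin
import Pool.Agent.L7h85.PW.Tas
import Pool.Agent.L7h97.RL.Grd
import Pool.Agent.L7h73.RL.Nsx
import Pool.Agent.L7h94.SI.Frob

/-!
# The number of the Tate classes on the powers of a variety
-/

set_option linter.unusedVariables false
set_option linter.unusedSectionVars false

open CategoryTheory AlgebraicGeometry CategoryTheory.Limits Filter Topology

universe u v w

namespace Pool.Agent.L7h85.PW

open Pool.Agent.H914 Pool.Agent.H447 Pool.Agent.W534 VarClass Obj WeilCohomology Module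
open Pool.Agent.Y163 Pool.Agent.L7h85.RL Pool.Agent.R908 Pool.Agent.L7h89.RL
open Pool.Agent.L7h85.GR (eigs Growth)

variable {k : Type u} [Field k] {𝒱 : VarClass k} {ops : CycleOps 𝒱}
  {W : WeilCohomology.{u, v} ops} {X Y Z : 𝒱.Obj} {p : ℕ} (Φ : FrobSystem W p)

/-! ### Tate classes as a kernel -/

lemma tate_iff {j s : ℕ} {c : W.H Z} : (W.map (W534.iter (Φ.Fr Z) s) c =
    ((p : W.K) ^ (Φ.e Z * s * j)) • c) ↔ c ∈ LinearMap.ker (frob Φ Z s -
      ((card Φ Z s : W.K) ^ j) • (1 : Module.End W.K (W.H Z))) := by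
  rw [LinearMap.mem_ker, LinearMap.sub_apply, LinearMap.smul_apply, Module.End.one_apply,
    sub_eq_zero, card_pow, frob_apply]

lemma ker_mul {j s m : ℕ} {c : W.H Z} (h : c ∈ LinearMap.ker (frob Φ Z s -
      ((card Φ Z s : W.K) ^ j) • (1 : Module.End W.K (W.H Z)))) :
    c ∈ LinearMap.ker (frob Φ Z (s * m) -
      ((card Φ Z (s * m) : W.K) ^ j) • (1 : Module.End W.K (W.H Z))) := by
  rw [LinearMap.mem_ker, LinearMap.sub_apply, LinearMap.smul_apply, Module.End.one_apply,
    sub_eq_zero] at h ⊢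
  have e1 : (card Φ Z (s * m) : W.K) ^ j = ((card Φ Z s : W.K) ^ j) ^ m := by
    rw [card_pow, card_pow, ← pow_mul]
    congr 1
    ring
  rw [frob_mul_eq, e1]
  induction m with
  | zero => simp
  | succ m ih => 
    rw [pow_succ, Module.End.mul_apply, h, map_smul, ih (by
      rw [card_pow, card_pow, ← pow_mul]
      congr 1
      ring), smul_smul, ← pow_succ']

lemma exists_tsub (hp : 1 < p) {σ : W.K →+* ℂ} (hRH : RiemannHyp Φ σ Z) (j : ℕ) :
    ∃ s, 0 < s ∧ ∀ m, 0 < m → tsub Φ Z j = LinearMap.ker (frob Φ Z (s * m) -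
      ((card Φ Z (s * m) : W.K) ^ j) • (1 : Module.End W.K (W.H Z))) := by
  let b := Module.finBasis W.K (tsub Φ Z j)
  have hb : ∀ i, ∃ s, 0 < s ∧ ((b i : tsub Φ Z j) : W.H Z) ∈ LinearMap.ker (frob Φ Z s -
      ((card Φ Z s : W.K) ^ j) • (1 : Module.End W.K (W.H Z))) := by
    intro i
    obtain ⟨-, s, hs, h⟩ := L7h73.RL.mem_tsub Φ (b i).2
    exact ⟨s, hs, (tate_iff Φ).1 h⟩
  choose s hs hb using hb
  refine ⟨∏ i, s i, Finset.prod_pos fun i _ => hs i, fun m hm => le_antisymm ?_ ?_⟩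
  · have h1 : ∀ i, ((b i : tsub Φ Z j) : W.H Z) ∈ LinearMap.ker (frob Φ Z ((∏ i, s i) * m) -
      ((card Φ Z ((∏ i, s i) * m) : W.K) ^ j) • (1 : Module.End W.K (W.H Z))) := by
      intro i
      rw [← Finset.mul_prod_erase _ _ (Finset.mem_univ i), mul_assoc]
      exact ker_mul Φ (hb i)
    intro c hc
    have h2 := congrArg (Submodule.subtype _) (b.sum_repr ⟨c, hc⟩)
    rw [map_sum] at h2
    change _ = c at h2
    rw [← h2]
    refine Submodule.sum_mem _ fun i _ => ?_
    rw [map_smul]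
    exact Submodule.smul_mem _ _ (h1 i)
  · intro c hc
    have hS : 0 < (∏ i, s i) * m := Nat.mul_pos (Finset.prod_pos fun i _ => hs i) hm
    refine Submodule.subset_span ⟨?_, _, hS, (tate_iff Φ).2 hc⟩
    refine gr_of_eig Φ hp hRH hS (μ := (card Φ Z ((∏ i, s i) * m) : W.K) ^ j) (M := 1) ?_ ?_
    · rw [map_pow, map_natCast, norm_pow, Complex.norm_natCast, ← pow_mul, mul_comm j 2]
    · rw [pow_one]
      exact hc

/-! ### The relative Frobenius endomorphism of the powers -/

/-- the Frobenius endomorphism of the powers relative to the field of definition of `X` -/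
noncomputable def EE (X : 𝒱.Obj) : (n : ℕ) → Module.End W.K (W.H (Y163.pw X n))
  | 0 => frob Φ X 1
  | n + 1 => extOp W (frob Φ X 1) (EE X n)

lemma extOp_pow' (P : Module.End W.K (W.H Y)) (Q : Module.End W.K (W.H Z)) (m : ℕ) :
    (extOp W P Q) ^ m = extOp W (P ^ m) (Q ^ m) := by
  induction m with
  | zero => rw [pow_zero, pow_zero, pow_zero, extOp_one]
  | succ m ih => rw [pow_succ, ih, extOp_mul, ← pow_succ, ← pow_succ]

lemma level_prod {e₀ : ℕ} (he₀ : 0 < e₀) {P : Module.End W.K (W.H Y)}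
    {Q : Module.End W.K (W.H Z)} {a b a' b' : ℕ} (ha : 0 < a) (hb : 0 < b) (ha' : 0 < a')
    (hab : Φ.e Y * a = e₀ * b) (hab' : Φ.e Z * a' = e₀ * b') (hP : frob Φ Y a = P ^ b)
    (hQ : frob Φ Z a' = Q ^ b') : ∃ A B, 0 < A ∧ 0 < B ∧ Φ.e (Y.prod Z) * A = e₀ * B ∧
      frob Φ (Y.prod Z) A = (extOp W P Q) ^ B := by
  obtain ⟨α, β, γ, hα, hβ, hγ, h1, h2, h3⟩ := L7h97.RL.frob_prod Φ Y Z
  have hk : b * (β * a') = b' * (γ * a) := by
    have e1 : e₀ * (b * (β * a')) = e₀ * (b' * (γ * a)) := by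
      calc e₀ * (b * (β * a')) = (e₀ * b) * (β * a') := by ring
        _ = (Φ.e Y * β) * (a * a') := by rw [← hab]; ring
        _ = (Φ.e Z * γ) * (a * a') := by rw [← h1, h2]
        _ = (Φ.e Z * a') * (γ * a) := by ring
        _ = e₀ * (b' * (γ * a)) := by rw [hab']; ring
    exact Nat.eq_of_mul_eq_mul_left he₀ e1
  refine ⟨α * (a * a'), b * (β * a'), Nat.mul_pos hα (Nat.mul_pos ha ha'),
    Nat.mul_pos hb (Nat.mul_pos hβ ha'), ?_, ?_⟩
  · calc Φ.e (Y.prod Z) * (α * (a * a')) = (Φ.e (Y.prod Z) * α) * (a * a') := by ring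
      _ = (Φ.e Y * a) * (β * a') := by rw [h1]; ring
      _ = e₀ * (b * (β * a')) := by rw [hab]; ring
  · rw [h3, extOp_pow']
    have e1 : frob Φ Y (β * (a * a')) = P ^ (b * (β * a')) := by
      rw [show β * (a * a') = a * (β * a') by ring, frob_mul_eq, hP, ← pow_mul]
    have e2 : frob Φ Z (γ * (a * a')) = Q ^ (b * (β * a')) := by
      rw [show γ * (a * a') = a' * (γ * a) by ring, frob_mul_eq, hQ, ← pow_mul, hk]
    rw [e1, e2]

lemma level_pw (X : 𝒱.Obj) (n : ℕ) : ∃ A B, 0 < A ∧ 0 < B ∧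
    Φ.e (Y163.pw X n) * A = Φ.e X * B ∧ frob Φ (Y163.pw X n) A = (EE Φ X n) ^ B := by
  induction n with
  | zero => exact ⟨1, 1, one_pos, one_pos, rfl, (pow_one _).symm⟩
  | succ n ih =>
    obtain ⟨A, B, hA, hB, h1, h2⟩ := ih
    exact level_prod Φ (Y := X) (Z := Y163.pw X n) (Φ.e_pos X) (a := 1) (b := 1) one_pos one_pos
      hA (by ring) h1 (by rw [pow_one]) h2

lemma level_sq (X : 𝒱.Obj) (n : ℕ) : ∃ A B, 0 < A ∧ 0 < B ∧
    Φ.e (Y163.sq X n) * A = Φ.e X * B ∧
      frob Φ (Y163.sq X n) A = (extOp W (EE Φ X n) (EE Φ X n)) ^ B := by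
  obtain ⟨A, B, hA, hB, h1, h2⟩ := level_pw Φ X n
  exact level_prod Φ (Φ.e_pos X) hA hB hA h1 h1 h2 h2

/-! ### Duality -/

lemma finrank_dual (F : Module.End W.K (W.H X)) {q c : W.K} (hq : q ≠ 0) (hc : c ≠ 0)
    (h1 : adj F * F = q • (1 : Module.End W.K (W.H X)))
    (h2 : F * adj F = q • (1 : Module.End W.K (W.H X))) (m : ℕ) :
    finrank W.K (LinearMap.ker ((F - c • (1 : Module.End W.K (W.H X))) ^ m)) =
      finrank W.K (LinearMap.ker ((F - (q / c) • (1 : Module.End W.K (W.H X))) ^ m)) := by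
  have key : finrank W.K (LinearMap.range ((F - c • (1 : Module.End W.K (W.H X))) ^ m)) =
      finrank W.K (LinearMap.range ((F - (q / c) • (1 : Module.End W.K (W.H X))) ^ m)) := by
    rw [← finrank_range_adj ((F - c • (1 : Module.End W.K (W.H X))) ^ m), adj_pow, adj_sub,
      adj_smul, adj_one]
    have hcomm : Commute (adj F - c • (1 : Module.End W.K (W.H X))) F := by
      apply Commute.sub_left
      · rw [commute_iff_eq, h1, h2]
      · exact (Commute.one_left _).smul_left _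
    have e1 : (adj F - c • (1 : Module.End W.K (W.H X))) * F =
        (-c) • (F - (q / c) • (1 : Module.End W.K (W.H X))) := by
      rw [sub_mul, h1, smul_mul_assoc, one_mul, smul_sub, smul_smul]
      have : -c * (q / c) = -q := by field_simp
      rw [this, neg_smul, neg_smul]
      abel
    have e2 : (adj F - c • (1 : Module.End W.K (W.H X))) ^ m * F ^ m =
        ((-c) ^ m) • (F - (q / c) • (1 : Module.End W.K (W.H X))) ^ m := by
      rw [← hcomm.mul_pow, e1, _root_.smul_pow]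
    have hsurj : Function.Surjective (F ^ m) := by
      have h3 : Function.Surjective F := by
        intro y
        refine ⟨q⁻¹ • adj F y, ?_⟩
        have h4 := LinearMap.congr_fun h2 y
        rw [Module.End.mul_apply, LinearMap.smul_apply, Module.End.one_apply] at h4
        rw [map_smul, h4, smul_smul, inv_mul_cancel₀ hq, one_smul]
      rw [Module.End.coe_pow]
      exact h3.iterate m
    have e3 : LinearMap.range ((adj F - c • (1 : Module.End W.K (W.H X))) ^ m) =
        LinearMap.range ((adj F - c • (1 : Module.End W.K (W.H X))) ^ m * F ^ m) :=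
      (LinearMap.range_comp_of_range_eq_top _ (LinearMap.range_eq_top.2 hsurj)).symm
    rw [e3, e2, LinearMap.range_smul _ _ (pow_ne_zero _ (neg_ne_zero.2 hc))]
  have h3 := LinearMap.finrank_range_add_finrank_ker
    ((F - c • (1 : Module.End W.K (W.H X))) ^ m)
  have h4 := LinearMap.finrank_range_add_finrank_ker
    ((F - (q / c) • (1 : Module.End W.K (W.H X))) ^ m)
  omega

end Pool.Agent.L7h85.PW
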